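import Mathlib

/-!
# Characters of a finite-dimensional algebra with central primitive idempotents   (size M-L)

Pure algebra, `K` algebraically closed, `C` a finite-dimensional `K`-algebra, `p i` central
orthogonal nonzero idempotents with sum `1`, each primitive.  Compare
`Pool/Agent/Work/MP_6d379e_ag/Ab/AbsAlg.lean` (the case of one idempotent, proved there over a
normed field; the proof there may be copied and adapted).

For every `i` the algebra `C_i = p i C` (identity `p i`) has only trivial idempotents, so each of its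
elements is nilpotent or invertible; as `K` is algebraically closed, every element is
`c • p i + nilpotent` with a unique `c`, and `c` defines a character of `C_i` with nilpotent kernel
(the nilpotent elements form an ideal, which is a nilpotent ideal by finite dimension).  Let `Λ i` be
the composition of `C → C_i`, `c ↦ p i * c` (an algebra homomorphism because `p i` is central) with
this character.  `Λ i (p j) = 0` for `j ≠ i`, `Λ i (p i) = 1`.  The intersection `J` of the kernels is
the sum of the nilpotent ideals of the `C_i`, so `J ^ N = ⊥` for large `N` (products of `N` elements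
of `J` vanish).  If all `Λ i c ≠ 0` then every `p i * c` is invertible in `C_i`, and the sum of the
inverses is an inverse of `c`.
Another way: `J := ` the Jacobson radical of `C`; `C / J` is semisimple with the `r` central
primitive idempotents `p i`, ... (Wedderburn), but the direct way is elementary.
-/

namespace Pool.Agent.Work.MP_6d379e_ag.Gs

section loc

/-- the kernel of the augmentation, as a subspace -/
private def kerL {K : Type*} [Field K] {V : Type*} [Ring V] [Algebra K V] (lam : V →ₐ[K] K) :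
    Submodule K V := LinearMap.ker lam.toLinearMap

variable {K : Type*} [Field K] [IsAlgClosed K]
variable {V : Type*} [Ring V] [Algebra K V] [FiniteDimensional K V]

private theorem ex_eig [Nontrivial V] (h : ∀ p : V, p * p = p → p = 0 ∨ p = 1) (v : V) :
    ∃ μ : K, IsNilpotent (v - algebraMap K V μ) := by
  obtain ⟨μ, hμ⟩ := spectrum.nonempty_of_isAlgClosed_of_finiteDimensional K v
  have hμ' : ¬ IsUnit (algebraMap K V μ - v) := hμ
  refine ⟨μ, ?_⟩
  have hint : IsIntegral K v := Algebra.IsIntegral.isIntegral v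
  have h0 : minpoly K v ≠ 0 := minpoly.ne_zero hint
  obtain ⟨q, hq, hnd⟩ :=
    Polynomial.exists_eq_pow_rootMultiplicity_mul_and_not_dvd (minpoly K v) h0 μ
  obtain ⟨n, hn⟩ : ∃ n, n = Polynomial.rootMultiplicity μ (minpoly K v) := ⟨_, rfl⟩
  rw [← hn] at hq
  have hco : IsCoprime ((Polynomial.X - Polynomial.C μ) ^ (n + 1)) q := by
    apply IsCoprime.pow_left
    exact ((Polynomial.irreducible_X_sub_C μ).coprime_iff_not_dvd).2 hnd
  obtain ⟨a, b, hab⟩ := hco
  have hp : Polynomial.aeval v (minpoly K v) = 0 := minpoly.aeval K v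
  have he : Polynomial.aeval v (b * q) * Polynomial.aeval v (b * q) =
      Polynomial.aeval v (b * q) := by
    rw [← map_mul]
    have h1 : b * q * (b * q) = b * q - a * b * (Polynomial.X - Polynomial.C μ) * minpoly K v := by
      rw [hq]
      linear_combination (b * q) * hab
    rw [h1, map_sub, map_mul _ (a * b * (Polynomial.X - Polynomial.C μ)), hp, mul_zero, sub_zero]
  have hx : Polynomial.aeval v ((Polynomial.X - Polynomial.C μ) ^ (n + 1)) =
      (v - algebraMap K V μ) ^ (n + 1) := by
    rw [map_pow, map_sub, Polynomial.aeval_X, Polynomial.aeval_C]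
  rcases h _ he with h1 | h1
  · exfalso
    have h2 := congrArg (Polynomial.aeval v) hab
    rw [map_add, h1, add_zero, map_one, map_mul, hx] at h2
    have h3 : (v - algebraMap K V μ) ^ (n + 1) * Polynomial.aeval v a = 1 := by
      rw [← h2, ← hx, ← map_mul, ← map_mul, mul_comm]
    have h4 : IsUnit ((v - algebraMap K V μ) ^ (n + 1)) := ⟨⟨_, _, h3, h2⟩, rfl⟩
    have h5 : IsUnit (v - algebraMap K V μ) := (isUnit_pow_iff (Nat.succ_ne_zero n)).1 h4
    apply hμ'
    rw [← neg_sub]
    exact h5.neg
  · refine ⟨n + 1, ?_⟩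
    have h2 : Polynomial.aeval v ((Polynomial.X - Polynomial.C μ) ^ (n + 1)) *
        Polynomial.aeval v (b * q) = 0 := by
      rw [← map_mul]
      have h3 : (Polynomial.X - Polynomial.C μ) ^ (n + 1) * (b * q) =
          b * (Polynomial.X - Polynomial.C μ) * minpoly K v := by
        rw [hq]
        ring
      rw [h3, map_mul, hp, mul_zero]
    rw [h1, mul_one, hx] at h2
    exact h2

omit [IsAlgClosed K] [FiniteDimensional K V] in
/-- the eigenvalue is unique -/
private theorem eig_unique [Nontrivial V] {v : V} {μ μ' : K}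
    (h : IsNilpotent (v - algebraMap K V μ)) (h' : IsNilpotent (v - algebraMap K V μ')) :
    μ = μ' := by
  have hc : Commute (v - algebraMap K V μ') (v - algebraMap K V μ) := by
    have c1 : Commute v (algebraMap K V μ) := (Algebra.commutes μ v).symm
    have c2 : Commute (algebraMap K V μ') v := Algebra.commutes μ' v
    have c3 : Commute (algebraMap K V μ') (algebraMap K V μ) := Algebra.commutes μ' _
    exact ((Commute.refl v).sub_right c1).sub_left (c2.sub_right c3)
  have h1 : IsNilpotent ((v - algebraMap K V μ') - (v - algebraMap K V μ)) := hc.isNilpotent_sub h' h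
  have h2 : (v - algebraMap K V μ') - (v - algebraMap K V μ) = algebraMap K V (μ - μ') := by
    rw [map_sub]
    abel
  rw [h2] at h1
  obtain ⟨n, hn⟩ := h1
  rw [← map_pow] at hn
  have h3 : (μ - μ') ^ n = 0 := (algebraMap K V).injective (by rw [hn, map_zero])
  have h4 : μ - μ' = 0 := eq_zero_of_pow_eq_zero h3
  exact sub_eq_zero.1 h4

omit [Field K] [IsAlgClosed K] [Algebra K V] [FiniteDimensional K V] in
private theorem not_unit_of_nil [Nontrivial V] {a : V} (ha : IsNilpotent a) : ¬ IsUnit a := by
  intro h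
  obtain ⟨n, hn⟩ := ha
  have h1 := h.pow n
  rw [hn] at h1
  exact not_isUnit_zero h1

/-- nilpotent or unit -/
private theorem nil_or_unit (K : Type*) [Field K] [IsAlgClosed K]
    {V : Type*} [Ring V] [Algebra K V] [FiniteDimensional K V] [Nontrivial V]
    (h : ∀ p : V, p * p = p → p = 0 ∨ p = 1) (v : V) :
    IsNilpotent v ∨ IsUnit v := by
  obtain ⟨μ, hμ⟩ := ex_eig (K := K) h v
  by_cases h0 : μ = 0
  · left
    rw [h0, map_zero, sub_zero] at hμ
    exact hμ
  · right
    have h1 : IsUnit (algebraMap K V μ) := (IsUnit.mk0 μ h0).map (algebraMap K V)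
    have h2 : Commute (v - algebraMap K V μ) (algebraMap K V μ) := (Algebra.commutes μ _).symm
    have h3 := IsNilpotent.isUnit_add_left_of_commute hμ h1 h2
    have h4 : algebraMap K V μ + (v - algebraMap K V μ) = v := by abel
    rw [h4] at h3
    exact h3

omit [Field K] [IsAlgClosed K] [Algebra K V] [FiniteDimensional K V] in
private theorem left_inv_nil [Nontrivial V] {a b : V} (ha : IsNilpotent a) (h : b * a = 1) :
    False := by
  obtain ⟨n, hn⟩ := ha
  have h1 : ∀ n : ℕ, b ^ n * a ^ n = 1 := by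
    intro n
    induction n with
    | zero => rw [pow_zero, pow_zero, mul_one]
    | succ n ih =>
      rw [pow_succ, pow_succ', mul_assoc, ← mul_assoc b a, h, one_mul, ih]
  have h2 := h1 n
  rw [hn, mul_zero] at h2
  exact zero_ne_one h2

omit [Field K] [IsAlgClosed K] [Algebra K V] [FiniteDimensional K V] in
private theorem right_inv_nil [Nontrivial V] {a b : V} (ha : IsNilpotent a) (h : a * b = 1) :
    False := by
  obtain ⟨n, hn⟩ := ha
  have h1 : ∀ n : ℕ, a ^ n * b ^ n = 1 := by
    intro n
    induction n with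
    | zero => rw [pow_zero, pow_zero, mul_one]
    | succ n ih =>
      rw [pow_succ, pow_succ', mul_assoc, ← mul_assoc a b, h, one_mul, ih]
  have h2 := h1 n
  rw [hn, zero_mul] at h2
  exact zero_ne_one h2

private theorem nil_mul_left (K : Type*) [Field K] [IsAlgClosed K]
    {V : Type*} [Ring V] [Algebra K V] [FiniteDimensional K V] [Nontrivial V]
    (h : ∀ p : V, p * p = p → p = 0 ∨ p = 1) (v : V)
    {a : V} (ha : IsNilpotent a) : IsNilpotent (v * a) := by
  rcases nil_or_unit K h (v * a) with h1 | h1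
  · exact h1
  · exfalso
    obtain ⟨u, hu⟩ := h1
    refine left_inv_nil ha (b := (↑u⁻¹ : V) * v) ?_
    rw [mul_assoc, ← hu, Units.inv_mul]

private theorem nil_mul_right (K : Type*) [Field K] [IsAlgClosed K]
    {V : Type*} [Ring V] [Algebra K V] [FiniteDimensional K V] [Nontrivial V]
    (h : ∀ p : V, p * p = p → p = 0 ∨ p = 1) (v : V)
    {a : V} (ha : IsNilpotent a) : IsNilpotent (a * v) := by
  rcases nil_or_unit K h (a * v) with h1 | h1
  · exact h1
  · exfalso
    obtain ⟨u, hu⟩ := h1
    refine right_inv_nil ha (b := v * (↑u⁻¹ : V)) ?_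
    rw [← mul_assoc, ← hu, Units.mul_inv]

private theorem nil_add (K : Type*) [Field K] [IsAlgClosed K]
    {V : Type*} [Ring V] [Algebra K V] [FiniteDimensional K V] [Nontrivial V]
    (h : ∀ p : V, p * p = p → p = 0 ∨ p = 1)
    {a b : V} (ha : IsNilpotent a) (hb : IsNilpotent b) : IsNilpotent (a + b) := by
  rcases nil_or_unit K h (a + b) with h1 | h1
  · exact h1
  · exfalso
    obtain ⟨u, hu⟩ := h1
    have h2 : (↑u⁻¹ : V) * a + ↑u⁻¹ * b = 1 := by rw [← mul_add, ← hu, Units.inv_mul]
    have h3 : IsUnit (1 - (↑u⁻¹ : V) * a) := (nil_mul_left K h _ ha).isUnit_one_sub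
    have h4 : 1 - (↑u⁻¹ : V) * a = ↑u⁻¹ * b := by
      rw [← h2]
      abel
    rw [h4] at h3
    exact not_unit_of_nil (nil_mul_left K h _ hb) h3

private theorem local_lam [Nontrivial V] (h : ∀ p : V, p * p = p → p = 0 ∨ p = 1) :
    ∃ (lam : V →ₐ[K] K) (N : ℕ), kerL lam ^ N = ⊥ ∧ (∀ v, lam v = 0 → v ^ N = 0) ∧
      ∀ v, lam v ≠ 0 → IsUnit v := by
  choose l hl using fun v : V => ex_eig (K := K) h v
  have hu : ∀ (v : V) (μ : K), IsNilpotent (v - algebraMap K V μ) → l v = μ :=
    fun v μ hv => eig_unique (hl v) hv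
  obtain ⟨lam, hlam⟩ : ∃ lam : V →ₐ[K] K, ∀ v, lam v = l v := by
    refine ⟨{ toFun := l, map_one' := ?_, map_mul' := ?_, map_zero' := ?_, map_add' := ?_,
              commutes' := ?_ }, fun v => rfl⟩
    · exact hu 1 1 (by rw [map_one, sub_self]; exact IsNilpotent.zero)
    · intro x y
      refine hu _ _ ?_
      have h1 : x * y - algebraMap K V (l x * l y) =
          (x - algebraMap K V (l x)) * y + algebraMap K V (l x) * (y - algebraMap K V (l y)) := by
        rw [map_mul]
        noncomm_ring
      rw [h1]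
      exact nil_add K h (nil_mul_right K h _ (hl x))
        (nil_mul_left K h _ (hl y))
    · exact hu 0 0 (by rw [map_zero, sub_zero]; exact IsNilpotent.zero)
    · intro x y
      refine hu _ _ ?_
      have h1 : x + y - algebraMap K V (l x + l y) =
          (x - algebraMap K V (l x)) + (y - algebraMap K V (l y)) := by
        rw [map_add]
        abel
      rw [h1]
      exact nil_add K h (hl x) (hl y)
    · intro r
      refine hu _ _ ?_
      show IsNilpotent (algebraMap K V r - algebraMap K V r)
      rw [sub_self]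
      exact IsNilpotent.zero
  have hker : ∀ v, v ∈ kerL lam → IsNilpotent v := by
    intro v hv
    have h1 : lam v = 0 := hv
    have h2 := hl v
    rw [← hlam v, h1, map_zero, sub_zero] at h2
    exact h2
  have hart : IsArtinianRing V := IsArtinianRing.of_finite K V
  obtain ⟨N, hN⟩ := IsArtinianRing.isNilpotent_jacobson_bot (R := V)
  have hsub : ∀ v, v ∈ kerL lam → v ∈ Ideal.jacobson (⊥ : Ideal V) := by
    intro v hv
    rw [Ideal.mem_jacobson_iff]
    intro y
    have h1 : IsUnit (1 + y * v) := (nil_mul_left K h y (hker v hv)).isUnit_one_add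
    obtain ⟨u, hu'⟩ := h1
    refine ⟨(↑u⁻¹ : V), ?_⟩
    have h2 : (↑u⁻¹ : V) * y * v + ↑u⁻¹ - 1 = 0 := by
      have h3 : (↑u⁻¹ : V) * (1 + y * v) = 1 := by rw [← hu', Units.inv_mul]
      rw [mul_add, mul_one, ← mul_assoc] at h3
      rw [← h3]
      abel
    rw [h2]
    exact Ideal.zero_mem _
  have hpow : ∀ n : ℕ, ∀ v, v ∈ kerL lam ^ n → v ∈ (Ideal.jacobson (⊥ : Ideal V)) ^ n := by
    intro n
    induction n with
    | zero =>
      intro v _
      rw [Submodule.pow_zero, Ideal.one_eq_top]
      trivial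
    | succ n ih =>
      intro v hv
      rw [Submodule.pow_succ] at hv
      have h1 : kerL lam ^ n * kerL lam ≤
          ((Ideal.jacobson (⊥ : Ideal V)) ^ (n + 1)).restrictScalars K := by
        rw [Submodule.mul_le]
        intro a ha b hb
        show a * b ∈ (Ideal.jacobson (⊥ : Ideal V)) ^ (n + 1)
        rw [Submodule.pow_succ]
        exact Ideal.mul_mem_mul (ih a ha) (hsub b hb)
      exact h1 hv
  have hbot : kerL lam ^ N = ⊥ := by
    rw [eq_bot_iff]
    intro v hv
    have h1 := hpow N v hv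
    rw [hN] at h1
    exact h1
  refine ⟨lam, N, hbot, fun v hv => ?_, fun v hv => ?_⟩
  · have h1 : v ^ N ∈ kerL lam ^ N := Submodule.pow_mem_pow _ (show v ∈ kerL lam from hv) N
    rw [hbot] at h1
    exact h1
  · rcases nil_or_unit K h v with h1 | h1
    · exfalso
      apply hv
      rw [hlam]
      exact hu v 0 (by rw [map_zero, sub_zero]; exact h1)
    · exact h1

end loc

private theorem pow_mono' {K : Type*} [Field K] {V : Type*} [Ring V] [Algebra K V]
    {A B : Submodule K V} (h : A ≤ B) (n : ℕ) : A ^ n ≤ B ^ n := by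
  induction n with
  | zero => rw [Submodule.pow_zero, Submodule.pow_zero]
  | succ n ih =>
    rw [Submodule.pow_succ, Submodule.pow_succ]
    exact mul_le_mul' ih h

private theorem one_char {K : Type*} [Field K] [IsAlgClosed K] {C : Type*} [Ring C] [Algebra K C]
    [FiniteDimensional K C] {e : C} (hc : ∀ c, e * c = c * e) (h2 : e * e = e) (hne : e ≠ 0)
    (hprim : ∀ u, u * u = u → e * u = u → u = 0 ∨ u = e) :
    ∃ (Λ : C →ₐ[K] K) (N : ℕ), Λ e = 1 ∧ (∀ x, e * x = 0 → Λ x = 0) ∧
      (∀ n, N ≤ n → ∀ x ∈ (LinearMap.ker Λ.toLinearMap) ^ n, e * x = 0) ∧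
      ∀ c, Λ c ≠ 0 → ∃ d, e * (d * c) = e ∧ e * (c * d) = e := by
  obtain ⟨I, hI⟩ : ∃ I : Ideal C, ∀ x, x ∈ I ↔ e * x = 0 := by
    refine ⟨{ carrier := {x | e * x = 0}, add_mem' := ?_, zero_mem' := ?_, smul_mem' := ?_ },
      fun x => Iff.rfl⟩
    · intro a b ha hb
      show e * (a + b) = 0
      rw [mul_add, show e * a = 0 from ha, show e * b = 0 from hb, add_zero]
    · exact mul_zero e
    · intro c x hx
      show e * (c * x) = 0
      rw [← mul_assoc, hc, mul_assoc, show e * x = 0 from hx, mul_zero]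
  have hts : I.IsTwoSided := ⟨fun {a} b ha => by
    rw [hI] at ha ⊢
    rw [← mul_assoc, ha, zero_mul]⟩
  have hone : (Ideal.Quotient.mkₐ K I) e = 1 := by
    rw [← map_one (Ideal.Quotient.mkₐ K I)]
    have h3 : (Ideal.Quotient.mk I) e = (Ideal.Quotient.mk I) 1 := by
      rw [Ideal.Quotient.eq, hI, mul_sub, h2, mul_one, sub_self]
    exact h3
  have hker : ∀ x, (Ideal.Quotient.mkₐ K I) x = 0 ↔ e * x = 0 := by
    intro x
    rw [← hI]
    exact Ideal.Quotient.eq_zero_iff_mem
  have hsurj : Function.Surjective (Ideal.Quotient.mkₐ K I) := Ideal.Quotient.mkₐ_surjective K I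
  have hnt : Nontrivial (C ⧸ I) := by
    refine ⟨⟨1, 0, fun h => hne ?_⟩⟩
    rw [← hone, hker, h2] at h
    exact h
  have hfin : FiniteDimensional K (C ⧸ I) :=
    Module.Finite.of_surjective (Ideal.Quotient.mkₐ K I).toLinearMap hsurj
  have hid : ∀ q : C ⧸ I, q * q = q → q = 0 ∨ q = 1 := by
    intro q hq
    obtain ⟨x, rfl⟩ := hsurj q
    have h3 : e * (x * x - x) = 0 := by
      rw [← hker, map_sub, map_mul, hq, sub_self]
    have h4 : e * (x * x) = e * x := by
      rw [mul_sub] at h3
      exact sub_eq_zero.1 h3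
    rcases hprim (e * x) (by
      calc e * x * (e * x) = e * (x * e) * x := by noncomm_ring
        _ = e * (e * x) * x := by rw [hc x]
        _ = (e * e) * (x * x) := by noncomm_ring
        _ = e * x := by rw [h2, h4]) (by rw [← mul_assoc, h2]) with h5 | h5
    · left
      rw [hker, h5]
    · right
      rw [← hone, ← sub_eq_zero, ← map_sub, hker, mul_sub, h5, h2, sub_self]
  obtain ⟨lam, N, h3, -, h5⟩ := local_lam (K := K) hid
  refine ⟨lam.comp (Ideal.Quotient.mkₐ K I), N, ?_, ?_, ?_, ?_⟩
  · rw [AlgHom.comp_apply, hone, map_one]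
  · intro x hx
    rw [AlgHom.comp_apply, (hker x).2 hx, map_zero]
  · intro n hn x hx
    rw [← hker]
    have h6 : Submodule.map (Ideal.Quotient.mkₐ K I).toLinearMap
        ((LinearMap.ker (lam.comp (Ideal.Quotient.mkₐ K I)).toLinearMap) ^ n) ≤ kerL lam ^ n := by
      rw [Submodule.map_pow]
      apply pow_mono'
      rintro y ⟨z, hz, rfl⟩
      exact hz
    have h7 : kerL lam ^ n = ⊥ := by
      have h8 : kerL lam ^ N = 0 := h3
      exact pow_eq_zero_of_le hn h8
    have h9 := h6 ⟨x, hx, rfl⟩
    rw [h7] at h9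
    exact h9
  · intro c hcc
    obtain ⟨u, hu⟩ := h5 _ hcc
    obtain ⟨d, hd⟩ := hsurj (↑u⁻¹ : C ⧸ I)
    refine ⟨d, ?_, ?_⟩
    · have h6 : (Ideal.Quotient.mkₐ K I) (d * c - 1) = 0 := by
        have h7 : (Ideal.Quotient.mkₐ K I) c = ↑u := hu.symm
        rw [map_sub, map_mul, hd, h7, map_one, Units.inv_mul, sub_self]
      rw [hker, mul_sub, mul_one] at h6
      exact sub_eq_zero.1 h6
    · have h6 : (Ideal.Quotient.mkₐ K I) (c * d - 1) = 0 := by
        have h7 : (Ideal.Quotient.mkₐ K I) c = ↑u := hu.symm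
        rw [map_sub, map_mul, hd, h7, map_one, Units.mul_inv, sub_self]
      rw [hker, mul_sub, mul_one] at h6
      exact sub_eq_zero.1 h6

theorem central_chars {K : Type*} [Field K] [IsAlgClosed K] {C : Type*} [Ring C] [Algebra K C]
    [FiniteDimensional K C] {r : ℕ} {p : Fin r → C} (hc : ∀ i c, p i * c = c * p i)
    (h2 : ∀ i, p i * p i = p i) (ho : ∀ i j, i ≠ j → p i * p j = 0) (hs : ∑ i, p i = 1)
    (hne : ∀ i, p i ≠ 0) (hprim : ∀ i u, u * u = u → p i * u = u → u = 0 ∨ u = p i) :
    ∃ (Λ : Fin r → C →ₐ[K] K) (N : ℕ),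
      (∀ i j, Λ i (p j) = if i = j then 1 else 0) ∧
      (⨅ i, LinearMap.ker (Λ i).toLinearMap) ^ N = (⊥ : Submodule K C) ∧
      ∀ c, (∀ i, Λ i c ≠ 0) → IsUnit c := by
  classical
  have h := fun i => one_char (K := K) (hc i) (h2 i) (hne i) (hprim i)
  choose Λ N hΛ1 hΛ0 hΛN hΛu using h
  refine ⟨Λ, ∑ i, N i, fun i j => ?_, ?_, fun c hcc => ?_⟩
  · by_cases hij : i = j
    · subst hij
      rw [if_pos rfl, hΛ1]
    · rw [if_neg hij]
      exact hΛ0 i _ (ho i j hij)
  · rw [eq_bot_iff]
    intro x hx
    have h3 : ∀ i, p i * x = 0 := fun i =>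
      hΛN i _ (Finset.single_le_sum (f := N) (fun _ _ => Nat.zero_le _) (Finset.mem_univ i)) x
        (pow_mono' (iInf_le _ i) _ hx)
    have h4 : x = ∑ i, p i * x := by
      rw [← Finset.sum_mul, hs, one_mul]
    have h5 : x = 0 := by
      rw [h4]
      exact Finset.sum_eq_zero fun i _ => h3 i
    exact h5
  · choose d hd1 hd2 using fun i => hΛu i c (hcc i)
    have hl : (∑ i, p i * d i) * c = 1 := by
      rw [Finset.sum_mul, ← hs]
      refine Finset.sum_congr rfl fun i _ => ?_
      rw [mul_assoc, hd1 i]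
    have hr : c * (∑ i, p i * d i) = 1 := by
      rw [Finset.mul_sum, ← hs]
      refine Finset.sum_congr rfl fun i _ => ?_
      rw [← mul_assoc, ← hc i, mul_assoc, hd2 i]
    exact ⟨⟨c, _, hr, hl⟩, rfl⟩

end Pool.Agent.Work.MP_6d379e_ag.Gs
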