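import Pool.Agent.Work.MP_6d379e_ag.Gs.RegM

/-!
# The bundle of homomorphisms   (size M-L)

`homB E F` has fibres `ν' × ν → K`, thought of as matrices `Φ a b = σ (a, b)`, the covering
`E.U i ∩ F.U j` (`cov_prod`), and over such a member the frame which sends a matrix `X` to
`F.e j x * X * (E.e i x)⁻¹`, that is the Kronecker product of `F.e j x` and the transpose of
`(E.e i x)⁻¹`.
* `homB_unit` : the inverse is the Kronecker product of the inverses (`Matrix.mul_kronecker_mul`,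
  `Matrix.one_kronecker_one`; or `Matrix.det_kronecker`).
* `homB_compat` : the product of the inverse of the frame `(i, j)` and the frame `(i', j')` is on
  the intersection the Kronecker product of `(F.e j x)⁻¹ * F.e j' x` and the transpose of
  `(E.e i' x)⁻¹ * E.e i x`, both regular (`VB.compat`).
* `homV_iff_sec` : on `E.U i ∩ F.U j` the coordinates of `Φ` in the frame are the entries of
  `(F.e j x)⁻¹ * Φ x * E.e i x`.
* `homB_pull` : both sides unfold to the same statement.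
-/

namespace Pool.Agent.Work.MP_6d379e_ag.Gs

universe u

open scoped Kronecker

variable {K : Type*} [Field K] {X Y : Type u} {G : GSp K X} {H : GSp K Y}
variable {ν ν' : Type} [Fintype ν] [DecidableEq ν] [Fintype ν'] [DecidableEq ν']

theorem homB_cov (E : VB G ν) (F : VB G ν') :
    G.cov Set.univ (Set.range fun p : E.I × F.I => E.U p.1 ∩ F.U p.2) :=
  cov_prod E.cov F.cov

private theorem invK {P : Matrix ν ν K} {Q : Matrix ν' ν' K} (hP : IsUnit P.det) :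
    (Q ⊗ₖ (P⁻¹).transpose)⁻¹ = Q⁻¹ ⊗ₖ P.transpose := by
  rw [Matrix.inv_kronecker, ← Matrix.transpose_nonsing_inv, Matrix.nonsing_inv_nonsing_inv P hP]

private theorem coordK {P : Matrix ν ν K} {Q : Matrix ν' ν' K} (hP : IsUnit P.det)
    (Φ : Matrix ν' ν K) (a : ν') (b : ν) :
    ((Q ⊗ₖ (P⁻¹).transpose)⁻¹.mulVec (fun p : ν' × ν => Φ p.1 p.2)) (a, b) =
      (Q⁻¹ * Φ * P) a b := by
  rw [invK hP]
  simp only [Matrix.mulVec, dotProduct, Matrix.kroneckerMap_apply, Matrix.transpose_apply,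
    Matrix.mul_apply, Finset.sum_mul, Fintype.sum_prod_type]
  rw [Finset.sum_comm]
  refine Finset.sum_congr rfl fun d _ => Finset.sum_congr rfl fun c _ => ?_
  ring

private theorem admE (E : VB G ν) (i : E.I) : G.adm (E.U i) :=
  ((G.cov_adm _ _ E.cov).2 _ ⟨i, rfl⟩).1

theorem homB_unit (E : VB G ν) (F : VB G ν') (p : E.I × F.I) (x : X)
    (hx : x ∈ E.U p.1 ∩ F.U p.2) :
    IsUnit ((F.e p.2 x) ⊗ₖ ((E.e p.1 x)⁻¹).transpose).det := by
  rw [Matrix.det_kronecker, Matrix.det_transpose]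
  exact ((F.unit p.2 x hx.2).pow _).mul
    (((Matrix.isUnit_nonsing_inv_det _ (E.unit p.1 x hx.1))).pow _)

theorem homB_compat (E : VB G ν) (F : VB G ν') (p q : E.I × F.I) (a b : ν' × ν) :
    G.reg ((E.U p.1 ∩ F.U p.2) ∩ (E.U q.1 ∩ F.U q.2)) fun x =>
      (((F.e p.2 x) ⊗ₖ ((E.e p.1 x)⁻¹).transpose)⁻¹ *
        ((F.e q.2 x) ⊗ₖ ((E.e q.1 x)⁻¹).transpose)) a b := by
  have hadm : G.adm ((E.U p.1 ∩ F.U p.2) ∩ (E.U q.1 ∩ F.U q.2)) :=
    G.adm_inter _ _ (G.adm_inter _ _ (admE E _) (admE F _)) (G.adm_inter _ _ (admE E _) (admE F _))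
  have h1 : G.reg ((E.U p.1 ∩ F.U p.2) ∩ (E.U q.1 ∩ F.U q.2))
      fun x => ((F.e p.2 x)⁻¹ * F.e q.2 x) a.1 b.1 :=
    G.reg_mono _ _ _ (F.compat p.2 q.2 a.1 b.1) hadm fun x hx => ⟨hx.1.2, hx.2.2⟩
  have h2 : G.reg ((E.U p.1 ∩ F.U p.2) ∩ (E.U q.1 ∩ F.U q.2))
      fun x => ((E.e q.1 x)⁻¹ * E.e p.1 x) b.2 a.2 :=
    G.reg_mono _ _ _ (E.compat q.1 p.1 b.2 a.2) hadm fun x hx => ⟨hx.2.1, hx.1.1⟩
  refine G.reg_congr _ _ _ (G.reg_mul _ _ _ h1 h2) fun x hx => ?_
  rw [invK (E.unit p.1 x hx.1.1), ← Matrix.mul_kronecker_mul, Matrix.kroneckerMap_apply,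
    ← Matrix.transpose_mul, Matrix.transpose_apply]

/-- the bundle of homomorphisms from `E` to `F` -/
noncomputable def homB (E : VB G ν) (F : VB G ν') : VB G (ν' × ν) where
  I := E.I × F.I
  U := fun p => E.U p.1 ∩ F.U p.2
  e := fun p x => (F.e p.2 x) ⊗ₖ ((E.e p.1 x)⁻¹).transpose
  cov := homB_cov E F
  unit := fun p x hx => homB_unit E F p x hx
  compat := fun p q a b => homB_compat E F p q a b

theorem homV_iff_sec (E : VB G ν) (F : VB G ν') (Φ : X → Matrix ν' ν K) :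
    HomV E F Φ ↔ (fun x (p : ν' × ν) => Φ x p.1 p.2) ∈ Sec (homB E F) := by
  constructor
  · intro h p a
    exact G.reg_congr _ _ _ (h p.1 p.2 a.1 a.2) fun x hx =>
      (coordK (E.unit p.1 x hx.1) (Φ x) a.1 a.2).symm
  · intro h i j a b
    exact G.reg_congr _ _ _ (h (i, j) (a, b)) fun x hx =>
      coordK (E.unit i x hx.1) (Φ x) a b

theorem homB_pull {φ : X → Y} (hφ : Mor G H φ) (E : VB H ν) (F : VB H ν')
    (σ : X → ν' × ν → K) :
    σ ∈ Sec ((homB E F).pull hφ) ↔ σ ∈ Sec (homB (E.pull hφ) (F.pull hφ)) := Iff.rfl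

theorem secOn_homB_iff (E : VB G ν) (F : VB G ν') (S : Set X) (Φ : X → Matrix ν' ν K) :
    SecOn (homB E F) S (fun x (p : ν' × ν) => Φ x p.1 p.2) ↔
      ∀ i j, RM G ((E.U i ∩ F.U j) ∩ S) fun x => (F.e j x)⁻¹ * Φ x * E.e i x := by
  constructor
  · intro h i j a b
    exact G.reg_congr _ _ _ (h (i, j) (a, b)) fun x hx =>
      coordK (E.unit i x hx.1.1) (Φ x) a b
  · intro h p a
    exact G.reg_congr _ _ _ (h p.1 p.2 a.1 a.2) fun x hx =>
      (coordK (E.unit p.1 x hx.1.1) (Φ x) a.1 a.2).symm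

end Pool.Agent.Work.MP_6d379e_ag.Gs
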