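import Mathlib

/-!
# Krull-Schmidt in a graded algebra with units in every degree   (size M-L)

Pure algebra.  `H x`, `x ∈ A`, are subspaces of the algebra `𝓔` with `H x * H y ⊆ H (x + y)`,
`1 ∈ H 0`, `H 0` finite-dimensional, every `H x` contains a unit whose inverse is in `H (-x)`.
`p` is a decomposition of `1` into primitive orthogonal idempotents of `H 0`.

Step 0 (local corners).  For every `i` the corner `C_i = {c ∈ H 0 | p i * c = c = c * p i}` is a
finite-dimensional algebra with identity `p i ≠ 0` whose only idempotents are `0` and `p i`; so in it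
every element is nilpotent or invertible (Fitting's lemma), and if a finite sum of elements of `C_i`
is `p i` then one of them is invertible in `C_i` (if `a + b = 1` in a ring where every element is
nilpotent or a unit, and `a` is not a unit, then `a` is nilpotent and `b = 1 - a` is a unit).
Step 1.  Write `R_x (i, j)` if there are `α ∈ H x`, `β ∈ H (-x)` with `p j * α * p i = α`,
`p i * β * p j = β`, `β * α = p i`, `α * β = p j`.  Then `R_x (i, j)` and `R_y (j, k)` imply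
`R_{x+y} (i, k)`; `R_x (i, j)` implies `R_{-x} (j, i)`; `R_0 (i, i)`.
Step 2 (exchange).  For all `x`, `i` there is `j` with `R_x (i, j)`: let `u ∈ H x`, `v = u⁻¹`.
`p i = ∑ j, (p i * v * p j) * (p j * u * p i)`, a sum of elements of `C_i`; so for some `j` the
element `γ = (p i v p j) (p j u p i)` has an inverse `δ` in `C_i`.  Put `α = p j u p i`,
`β = δ p i v p j`; `β α = δ γ = p i`.  `α β` is an idempotent of `C_j` (`α (β α) β = α p i β = α β`),
nonzero because `β (α β) α = p i ≠ 0`; so `α β = p j`.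
Step 3.  Let `x` and `i` be given, `n` the number of idempotents, and `y` with `(n !) • y = x`.
Choose `i_0 = i`, `R_y (i_k, i_{k+1})`; so `R_{k y} (i, i_k)`.  Two of `i_0, ..., i_n` are equal,
`i_a = i_b`, `a < b`; then `R_{(b - a) y} (i, i)`, and iterating `n ! / (b - a)` times `R_x (i, i)`.
Step 4.  For every `i` take `α_i`, `β_i` for `R_x (i, i)`; `θ = ∑ α_i`, `θ' = ∑ β_i`.
-/

namespace Pool.Agent.Work.MP_6d379e_ag.Gs

/-- graded algebra with units in every degree -/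
structure GrD {A : Type*} [AddCommGroup A] (K : Type*) [Field K] {𝓔 : Type*} [Ring 𝓔]
    [Algebra K 𝓔] (H : A → Submodule K 𝓔) : Prop where
  one : (1 : 𝓔) ∈ H 0
  mul : ∀ x y a b, a ∈ H x → b ∈ H y → a * b ∈ H (x + y)
  fin : FiniteDimensional K (H 0)
  inv : ∀ x, ∃ u ∈ H x, ∃ v ∈ H (-x), u * v = 1 ∧ v * u = 1

private theorem fit0 (K : Type*) [Field K] {S : Type*} [Ring S] [Algebra K S]
    [FiniteDimensional K S] (c : S) : ∃ (m : ℕ) (w : S), Commute c w ∧
      c ^ (m + 1) = c ^ (m + 2) * w := by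
  have hint : IsIntegral K c := Algebra.IsIntegral.isIntegral c
  obtain ⟨g, hg, hg0⟩ := hint
  have hgne : g ≠ 0 := hg.ne_zero
  obtain ⟨q, hq, hnd⟩ := Polynomial.exists_eq_pow_rootMultiplicity_mul_and_not_dvd g hgne 0
  rw [Polynomial.C_0, sub_zero] at hq hnd
  rw [Polynomial.X_dvd_iff] at hnd
  set m := Polynomial.rootMultiplicity 0 g with hm
  have h1 : (Polynomial.aeval c) g = 0 := by
    rw [Polynomial.aeval_def]; exact hg0
  rw [hq, map_mul, map_pow, Polynomial.aeval_X] at h1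
  have h2 : (Polynomial.aeval c) q =
      (Polynomial.aeval c) q.divX * c + algebraMap K S (q.coeff 0) := by
    conv_lhs => rw [← Polynomial.divX_mul_X_add q]
    rw [map_add, map_mul, Polynomial.aeval_X, Polynomial.aeval_C]
  have hcom : Commute c ((Polynomial.aeval c) q.divX) := by
    have h3 : c * (Polynomial.aeval c) q.divX = (Polynomial.aeval c) (Polynomial.X * q.divX) := by
      rw [map_mul, Polynomial.aeval_X]
    have h4 : (Polynomial.aeval c) q.divX * c = (Polynomial.aeval c) (q.divX * Polynomial.X) := by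
      rw [map_mul, Polynomial.aeval_X]
    show c * _ = _ * c
    rw [h3, h4, mul_comm]
  refine ⟨m, -((q.coeff 0)⁻¹ • (Polynomial.aeval c) q.divX), ?_, ?_⟩
  · exact (hcom.smul_right _).neg_right
  · rw [h2, mul_add, ← mul_assoc] at h1
    have h5 : c ^ m * algebraMap K S (q.coeff 0) =
        -(c ^ m * (Polynomial.aeval c) q.divX * c) := by
      rw [eq_neg_iff_add_eq_zero, add_comm]; exact h1
    have h6 : c ^ m * algebraMap K S (q.coeff 0) = (q.coeff 0) • c ^ m := by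
      rw [← Algebra.commutes, ← Algebra.smul_def]
    rw [h6] at h5
    have h7 : c ^ m = -((q.coeff 0)⁻¹ • (c ^ m * (Polynomial.aeval c) q.divX * c)) := by
      rw [← smul_neg, ← h5, smul_smul, inv_mul_cancel₀ hnd, one_smul]
    have h8 : c ^ (m + 1) = -((q.coeff 0)⁻¹ • (c ^ m * (Polynomial.aeval c) q.divX * c)) * c := by
      rw [← h7, pow_succ]
    rw [h8, mul_neg, neg_mul, mul_smul_comm, smul_mul_assoc]
    congr 2
    have h9 : (Polynomial.aeval c) q.divX * c = c * (Polynomial.aeval c) q.divX := hcom.symm.eq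
    rw [mul_assoc (c ^ m), h9, ← mul_assoc (c ^ m), ← pow_succ, mul_assoc, h9, ← mul_assoc,
      ← pow_succ]

private theorem fit1 (K : Type*) [Field K] {S : Type*} [Ring S] [Algebra K S]
    [FiniteDimensional K S] {p : S} (hp : p * p = p)
    (hprim : ∀ u : S, u * u = u → p * u = u → u * p = u → u = 0 ∨ u = p) {c : S}
    (h1 : p * c = c) (h2 : c * p = c) :
    (∃ m, c ^ m = 0) ∨ ∃ d, p * d = d ∧ d * p = d ∧ c * d = p ∧ d * c = p := by
  obtain ⟨m, w, hw, hcw⟩ := fit0 K c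
  have hit : ∀ k, c ^ (m + 1) = c ^ (m + 1 + k) * w ^ k := by
    intro k
    induction k with
    | zero => simp
    | succ k ih =>
      have h3 : c ^ (m + 1 + (k + 1)) * w ^ (k + 1) = c ^ k * (c ^ (m + 2) * w) * w ^ k := by
        rw [pow_succ' w, ← mul_assoc, ← mul_assoc, ← pow_add]
        congr 3
        ring
      rw [h3, ← hcw, ← pow_add, add_comm k]
      exact ih
  obtain ⟨e, he⟩ : ∃ e, e = c ^ (m + 1) * w ^ (m + 1) := ⟨_, rfl⟩
  have hcom : Commute (c ^ (m + 1)) (w ^ (m + 1)) := (hw.pow_pow _ _)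
  have hce : c ^ (m + 1) * e = c ^ (m + 1) := by
    rw [he, ← mul_assoc, ← pow_add, ← hit]
  have he' : e = w ^ (m + 1) * c ^ (m + 1) := by rw [he, hcom.eq]
  have hee : e * e = e := by
    calc e * e = (w ^ (m + 1) * c ^ (m + 1)) * e := by rw [← he']
      _ = w ^ (m + 1) * c ^ (m + 1) := by rw [mul_assoc, hce]
      _ = e := he'.symm
  have hpc : p * c ^ (m + 1) = c ^ (m + 1) := by
    rw [pow_succ', ← mul_assoc, h1]
  have hcp : c ^ (m + 1) * p = c ^ (m + 1) := by
    rw [pow_succ, mul_assoc, h2]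
  have hpe : p * e = e := by rw [he, ← mul_assoc, hpc]
  have hep : e * p = e := by rw [he, hcom.eq, mul_assoc, hcp]
  rcases hprim e hee hpe hep with h0 | h0
  · left
    refine ⟨m + 1, ?_⟩
    rw [← hce, h0, mul_zero]
  · right
    refine ⟨p * (c ^ m * w ^ (m + 1)) * p, ?_, ?_, ?_, ?_⟩
    · rw [← mul_assoc, ← mul_assoc, hp]
    · rw [mul_assoc, hp]
    · rw [← mul_assoc, ← mul_assoc, h2, ← mul_assoc, ← pow_succ', ← he, h0, hp]
    · rw [mul_assoc, h1]
      have h3 : c ^ m * w ^ (m + 1) * c = e := by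
        have h4 : w ^ (m + 1) * c = c * w ^ (m + 1) := (hw.pow_right (m + 1)).symm.eq
        rw [mul_assoc, h4, ← mul_assoc, ← pow_succ, he]
      rw [mul_assoc, h3, h0, hp]

private theorem not_nil {S : Type*} [Ring S] {p : S} (hp0 : p ≠ 0) {c y : S}
    (h3 : p * y = y) (hcy : c * y = p) (m : ℕ) : c ^ m ≠ 0 := by
  intro h0
  have key : ∀ k, c ^ (k + 1) * y ^ (k + 1) = p := by
    intro k
    induction k with
    | zero => simpa using hcy
    | succ k ih =>
      rw [pow_succ, pow_succ' y, mul_assoc, ← mul_assoc c y, hcy, pow_succ' y, ← mul_assoc p y,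
        h3, ← pow_succ' y]
      exact ih
  have := key m
  rw [pow_succ, h0, zero_mul, zero_mul] at this
  exact hp0 this.symm

private theorem inv_of_add (K : Type*) [Field K] {S : Type*} [Ring S] [Algebra K S]
    [FiniteDimensional K S] {p : S} (hp : p * p = p) (hp0 : p ≠ 0)
    (hprim : ∀ u : S, u * u = u → p * u = u → u * p = u → u = 0 ∨ u = p) {a b : S}
    (ha1 : p * a = a) (ha2 : a * p = a) (hb1 : p * b = b) (hb2 : b * p = b)
    {d : S} (hd1 : p * d = d) (hd : (a + b) * d = p) :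
    (∃ d, p * d = d ∧ d * p = d ∧ a * d = p ∧ d * a = p) ∨
      ∃ d, p * d = d ∧ d * p = d ∧ b * d = p ∧ d * b = p := by
  have hdp : (a + b) * (d * p) = p := by rw [← mul_assoc, hd, hp]
  have hd1' : p * (d * p) = d * p := by rw [← mul_assoc, hd1]
  have hd2' : d * p * p = d * p := by rw [mul_assoc, hp]
  have hA1 : p * (a * (d * p)) = a * (d * p) := by rw [← mul_assoc, ha1]
  have hA2 : a * (d * p) * p = a * (d * p) := by rw [mul_assoc, hd2']
  rcases fit1 K hp hprim hA1 hA2 with ⟨m, hm⟩ | ⟨x, hx1, hx2, hx3, hx4⟩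
  · right
    have hnil : IsNilpotent (a * (d * p)) := ⟨m, hm⟩
    obtain ⟨u, hu⟩ := hnil.isUnit_one_sub
    have h1 : b * (d * p) = p * (1 - a * (d * p)) := by
      rw [mul_sub, mul_one, hA1, eq_sub_iff_add_eq, add_comm, ← add_mul, hdp]
    have h2 : b * (d * p * (↑u⁻¹ * p)) = p := by
      rw [← mul_assoc, h1, ← hu, mul_assoc, ← mul_assoc (u : S), Units.mul_inv, one_mul, hp]
    have h3 : p * (d * p * (↑u⁻¹ * p)) = d * p * (↑u⁻¹ * p) := by rw [← mul_assoc, hd1']
    rcases fit1 K hp hprim hb1 hb2 with ⟨k, hk⟩ | h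
    · exact absurd hk (not_nil hp0 h3 h2 k)
    · exact h
  · left
    have h2 : a * (d * p * x) = p := by rw [← mul_assoc]; exact hx3
    have h3 : p * (d * p * x) = d * p * x := by rw [← mul_assoc, hd1']
    rcases fit1 K hp hprim ha1 ha2 with ⟨k, hk⟩ | h
    · exact absurd hk (not_nil hp0 h3 h2 k)
    · exact h

private theorem inv_of_sum (K : Type*) [Field K] {S : Type*} [Ring S] [Algebra K S]
    [FiniteDimensional K S] {p : S} (hp : p * p = p) (hp0 : p ≠ 0)
    (hprim : ∀ u : S, u * u = u → p * u = u → u * p = u → u = 0 ∨ u = p) {ι : Type*}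
    (s : Finset ι) (γ : ι → S) (h1 : ∀ i, p * γ i = γ i) (h2 : ∀ i, γ i * p = γ i) :
    (∃ d, p * d = d ∧ (∑ i ∈ s, γ i) * d = p) →
    ∃ i ∈ s, ∃ d, p * d = d ∧ d * p = d ∧ γ i * d = p ∧ d * γ i = p := by
  classical
  induction s using Finset.induction_on with
  | empty =>
    rintro ⟨d, _, hd⟩
    rw [Finset.sum_empty, zero_mul] at hd
    exact absurd hd.symm hp0
  | insert i s hi ih =>
    rintro ⟨d, hd1, hd⟩
    rw [Finset.sum_insert hi] at hd
    have hs1 : p * ∑ i ∈ s, γ i = ∑ i ∈ s, γ i := by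
      rw [Finset.mul_sum]; exact Finset.sum_congr rfl fun i _ => h1 i
    have hs2 : (∑ i ∈ s, γ i) * p = ∑ i ∈ s, γ i := by
      rw [Finset.sum_mul]; exact Finset.sum_congr rfl fun i _ => h2 i
    rcases inv_of_add K hp hp0 hprim (h1 i) (h2 i) hs1 hs2 hd1 hd with h | ⟨x, hx1, _, hx3, _⟩
    · exact ⟨i, Finset.mem_insert_self _ _, h⟩
    · obtain ⟨j, hj, h⟩ := ih ⟨x, hx1, hx3⟩
      exact ⟨j, Finset.mem_insert_of_mem hj, h⟩

private def S0 {A : Type*} [AddCommGroup A] {K : Type*} [Field K] {𝓔 : Type*} [Ring 𝓔]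
    [Algebra K 𝓔] {H : A → Submodule K 𝓔} (h : GrD K H) : Subalgebra K 𝓔 where
  carrier := H 0
  mul_mem' := fun {a b} ha hb => by
    have := h.mul 0 0 a b ha hb
    rwa [add_zero] at this
  add_mem' := fun {a b} ha hb => (H 0).add_mem ha hb
  algebraMap_mem' := fun r => by
    rw [Algebra.algebraMap_eq_smul_one]
    exact (H 0).smul_mem r h.one

private theorem fin0 {A : Type*} [AddCommGroup A] {K : Type*} [Field K] {𝓔 : Type*} [Ring 𝓔]
    [Algebra K 𝓔] {H : A → Submodule K 𝓔} (h : GrD K H) : FiniteDimensional K (S0 h) := h.fin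

private def Rel {A : Type*} [AddCommGroup A] {K : Type*} [Field K] {𝓔 : Type*} [Ring 𝓔]
    [Algebra K 𝓔] (H : A → Submodule K 𝓔) {n : ℕ} (p : Fin n → 𝓔) (x : A) (i j : Fin n) : Prop :=
  ∃ α ∈ H x, ∃ β ∈ H (-x), p j * α = α ∧ α * p i = α ∧ p i * β = β ∧ β * p j = β ∧
    β * α = p i ∧ α * β = p j

private theorem rel_trans {A : Type*} [AddCommGroup A] {K : Type*} [Field K] {𝓔 : Type*} [Ring 𝓔]
    [Algebra K 𝓔] {H : A → Submodule K 𝓔} (h : GrD K H) {n : ℕ} {p : Fin n → 𝓔} {x y : A}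
    {i j k : Fin n} (h1 : Rel H p x i j) (h2 : Rel H p y j k) : Rel H p (x + y) i k := by
  obtain ⟨α, hα, β, hβ, a1, a2, a3, a4, a5, a6⟩ := h1
  obtain ⟨α', hα', β', hβ', b1, b2, b3, b4, b5, b6⟩ := h2
  refine ⟨α' * α, ?_, β * β', ?_, ?_, ?_, ?_, ?_, ?_, ?_⟩
  · rw [add_comm]; exact h.mul _ _ _ _ hα' hα
  · rw [neg_add]; exact h.mul _ _ _ _ hβ hβ'
  · rw [← mul_assoc, b1]
  · rw [mul_assoc, a2]
  · rw [← mul_assoc, a3]
  · rw [mul_assoc, b4]
  · rw [mul_assoc, ← mul_assoc β', b5, ← mul_assoc, a4, a5]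
  · rw [mul_assoc, ← mul_assoc α, a6, ← mul_assoc, b2, b6]

private theorem rel_symm {A : Type*} [AddCommGroup A] {K : Type*} [Field K] {𝓔 : Type*} [Ring 𝓔]
    [Algebra K 𝓔] {H : A → Submodule K 𝓔} {n : ℕ} {p : Fin n → 𝓔} {x : A}
    {i j : Fin n} (h1 : Rel H p x i j) : Rel H p (-x) j i := by
  obtain ⟨α, hα, β, hβ, a1, a2, a3, a4, a5, a6⟩ := h1
  refine ⟨β, hβ, α, ?_, a3, a4, a1, a2, a6, a5⟩
  rw [neg_neg]; exact hα

private theorem rel_smul {A : Type*} [AddCommGroup A] {K : Type*} [Field K] {𝓔 : Type*} [Ring 𝓔]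
    [Algebra K 𝓔] {H : A → Submodule K 𝓔} (h : GrD K H) {n : ℕ} {p : Fin n → 𝓔}
    (hp : ∀ i, p i ∈ H 0) (h2 : ∀ i, p i * p i = p i) {y : A} (f : Fin n → Fin n)
    (hf : ∀ i, Rel H p y i (f i)) (i : Fin n) (k : ℕ) : Rel H p (k • y) i (f^[k] i) := by
  induction k with
  | zero =>
    rw [zero_nsmul, Function.iterate_zero, id]
    refine ⟨p i, hp i, p i, ?_, h2 i, h2 i, h2 i, h2 i, h2 i, h2 i⟩
    rw [neg_zero]; exact hp i
  | succ k ih =>
    rw [succ_nsmul, Function.iterate_succ_apply']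
    exact rel_trans h ih (hf _)

private theorem rel_mul {A : Type*} [AddCommGroup A] {K : Type*} [Field K] {𝓔 : Type*} [Ring 𝓔]
    [Algebra K 𝓔] {H : A → Submodule K 𝓔} (h : GrD K H) {n : ℕ} {p : Fin n → 𝓔}
    (hp : ∀ i, p i ∈ H 0) (h2 : ∀ i, p i * p i = p i) {y : A} (i : Fin n)
    (hf : Rel H p y i i) (k : ℕ) : Rel H p (k • y) i i := by
  induction k with
  | zero =>
    rw [zero_nsmul]
    refine ⟨p i, hp i, p i, ?_, h2 i, h2 i, h2 i, h2 i, h2 i, h2 i⟩
    rw [neg_zero]; exact hp i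
  | succ k ih =>
    rw [succ_nsmul]
    exact rel_trans h ih hf

private theorem rel_ex {A : Type*} [AddCommGroup A] {K : Type*} [Field K] {𝓔 : Type*} [Ring 𝓔]
    [Algebra K 𝓔] {H : A → Submodule K 𝓔} (h : GrD K H) {n : ℕ} {p : Fin n → 𝓔}
    (hp : ∀ i, p i ∈ H 0) (h2 : ∀ i, p i * p i = p i)
    (hs : ∑ i, p i = 1) (hne : ∀ i, p i ≠ 0)
    (hprim : ∀ i u, u ∈ H 0 → u * u = u → p i * u = u → u * p i = u → u = 0 ∨ u = p i) (x : A)
    (i : Fin n) : ∃ j, Rel H p x i j := by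
  obtain ⟨u, hu, v, hv, huv, hvu⟩ := h.inv x
  have hm0 : ∀ a b, a ∈ H (-x) → b ∈ H x → a * b ∈ H 0 := by
    intro a b ha hb
    have := h.mul _ _ a b ha hb
    rwa [neg_add_cancel] at this
  have hl : ∀ (z : A) (a : 𝓔) (j : Fin n), a ∈ H z → p j * a ∈ H z := by
    intro z a j ha
    have := h.mul _ _ (p j) a (hp j) ha
    rwa [zero_add] at this
  have hr : ∀ (z : A) (a : 𝓔) (j : Fin n), a ∈ H z → a * p j ∈ H z := by
    intro z a j ha
    have := h.mul _ _ a (p j) ha (hp j)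
    rwa [add_zero] at this
  have hγ : ∀ j, p i * v * (p j * u * p i) ∈ H 0 := fun j =>
    hm0 _ _ (hl _ _ _ hv) (hr _ _ _ (hl _ _ _ hu))
  have := fin0 h
  obtain ⟨P, hP⟩ : ∃ P : S0 h, P = ⟨p i, hp i⟩ := ⟨_, rfl⟩
  obtain ⟨γ, hγdef⟩ : ∃ γ : Fin n → S0 h, ∀ j, γ j = ⟨p i * v * (p j * u * p i), hγ j⟩ :=
    ⟨_, fun _ => rfl⟩
  have hPP : P * P = P := by rw [hP]; exact Subtype.ext (h2 i)
  have hP0 : P ≠ 0 := by
    intro h0
    apply hne i
    have := congrArg Subtype.val h0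
    rw [hP] at this
    exact this
  have hPprim : ∀ w : S0 h, w * w = w → P * w = w → w * P = w → w = 0 ∨ w = P := by
    intro w w1 w2 w3
    rw [hP] at w2 w3 ⊢
    rcases hprim i w w.2 (congrArg Subtype.val w1) (congrArg Subtype.val w2)
      (congrArg Subtype.val w3) with h0 | h0
    · exact Or.inl (Subtype.ext h0)
    · exact Or.inr (Subtype.ext h0)
  have hγ1 : ∀ j, P * γ j = γ j := by
    intro j
    rw [hP, hγdef]
    refine Subtype.ext ?_
    show p i * (p i * v * (p j * u * p i)) = p i * v * (p j * u * p i)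
    rw [← mul_assoc (p i), ← mul_assoc (p i) (p i), h2]
  have hγ2 : ∀ j, γ j * P = γ j := by
    intro j
    rw [hP, hγdef]
    refine Subtype.ext ?_
    show p i * v * (p j * u * p i) * p i = p i * v * (p j * u * p i)
    rw [mul_assoc, mul_assoc (p j * u), h2]
  have hsum : (∑ j ∈ Finset.univ, γ j) * P = P := by
    rw [Finset.sum_mul, Finset.sum_congr rfl fun j _ => hγ2 j]
    refine Subtype.ext ?_
    have h3 : ((∑ j, γ j : S0 h) : 𝓔) = ∑ j, (γ j : 𝓔) := by
      rw [AddSubmonoidClass.coe_finsetSum]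
    rw [h3, hP]
    show _ = p i
    have h4 : ∀ j, (γ j : 𝓔) = p i * v * (p j * u * p i) := by
      intro j; rw [hγdef]
    rw [Finset.sum_congr rfl fun j _ => h4 j, ← Finset.mul_sum, ← Finset.sum_mul,
      ← Finset.sum_mul, hs, one_mul, mul_assoc, ← mul_assoc v, hvu, one_mul, h2]
  obtain ⟨j, -, d, hd1, hd2, hd3, hd4⟩ := inv_of_sum K hPP hP0 hPprim Finset.univ γ hγ1 hγ2
    ⟨P, hPP, hsum⟩
  have e1 : p i * (d : 𝓔) = d := by
    have := congrArg Subtype.val hd1
    rw [hP] at this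
    exact this
  have e2 : (d : 𝓔) * p i = d := by
    have := congrArg Subtype.val hd2
    rw [hP] at this
    exact this
  have e4 : (d : 𝓔) * (p i * v * (p j * u * p i)) = p i := by
    have := congrArg Subtype.val hd4
    rw [hP, hγdef] at this
    exact this
  have hdm : (d : 𝓔) ∈ H 0 := d.2
  have ha : p j * u * p i ∈ H x := hr _ _ _ (hl _ _ _ hu)
  have hb : (d : 𝓔) * v * p j ∈ H (-x) := by
    refine hr _ _ _ ?_
    have := h.mul _ _ _ _ hdm hv
    rwa [zero_add] at this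
  have c1 : p j * (p j * u * p i) = p j * u * p i := by rw [← mul_assoc, ← mul_assoc, h2]
  have c2 : p j * u * p i * p i = p j * u * p i := by rw [mul_assoc, h2]
  have c3 : p i * ((d : 𝓔) * v * p j) = (d : 𝓔) * v * p j := by
    rw [← mul_assoc, ← mul_assoc, e1]
  have c4 : (d : 𝓔) * v * p j * p j = (d : 𝓔) * v * p j := by rw [mul_assoc, h2]
  have c5 : (d : 𝓔) * v * p j * (p j * u * p i) = p i := by
    have e5 : (d : 𝓔) * (p i * v * (p j * u * p i)) = d * v * (p j * u * p i) := by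
      rw [← mul_assoc (d : 𝓔) (p i * v), ← mul_assoc (d : 𝓔) (p i), e2]
    rw [mul_assoc, c1, ← e5, e4]
  obtain ⟨α, hα⟩ : ∃ α, α = p j * u * p i := ⟨_, rfl⟩
  obtain ⟨β, hβ⟩ : ∃ β, β = (d : 𝓔) * v * p j := ⟨_, rfl⟩
  rw [← hα] at ha c1 c2 c5
  rw [← hβ] at hb c3 c4 c5
  refine ⟨j, α, ha, β, hb, c1, c2, c3, c4, c5, ?_⟩
  have hab : α * β ∈ H 0 := by
    have := h.mul _ _ _ _ ha hb
    rwa [add_neg_cancel] at this
  have f1 : α * β * (α * β) = α * β := by rw [mul_assoc, ← mul_assoc β, c5, c3]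
  have f2 : p j * (α * β) = α * β := by rw [← mul_assoc, c1]
  have f3 : α * β * p j = α * β := by rw [mul_assoc, c4]
  rcases hprim j (α * β) hab f1 f2 f3 with h0 | h0
  · exfalso
    apply hne i
    rw [← h2 i, ← c5, mul_assoc, ← mul_assoc α, h0, zero_mul, mul_zero]
  · exact h0

private theorem rel_self {A : Type*} [AddCommGroup A]
    (hdiv : ∀ N : ℕ, 0 < N → ∀ x : A, ∃ y, N • y = x)
    {K : Type*} [Field K] {𝓔 : Type*} [Ring 𝓔]
    [Algebra K 𝓔] {H : A → Submodule K 𝓔} (h : GrD K H) {n : ℕ} {p : Fin n → 𝓔}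
    (hp : ∀ i, p i ∈ H 0) (h2 : ∀ i, p i * p i = p i)
    (hs : ∑ i, p i = 1) (hne : ∀ i, p i ≠ 0)
    (hprim : ∀ i u, u ∈ H 0 → u * u = u → p i * u = u → u * p i = u → u = 0 ∨ u = p i) (x : A)
    (i : Fin n) : Rel H p x i i := by
  obtain ⟨y, hy⟩ := hdiv n.factorial (Nat.factorial_pos n) x
  choose f hf using rel_ex h hp h2 hs hne hprim y
  have key : ∀ a b : ℕ, a < b → b ≤ n → f^[a] i = f^[b] i → Rel H p x i i := by
    intro a b hab hbn hfab
    have r1 := rel_smul h hp h2 f hf i a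
    have r2 := rel_smul h hp h2 f hf i b
    rw [hfab] at r1
    have r3 := rel_trans h r2 (rel_symm r1)
    obtain ⟨m, rfl⟩ := Nat.exists_eq_add_of_lt hab
    have h3 : (a + m + 1) • y + -(a • y) = (m + 1) • y := by
      rw [add_assoc, add_nsmul]
      abel
    rw [h3] at r3
    have hdvd : m + 1 ∣ n.factorial := Nat.dvd_factorial (Nat.succ_pos m) (by omega)
    obtain ⟨q, hq⟩ := hdvd
    have r4 := rel_mul h hp h2 i r3 q
    rw [smul_smul, mul_comm, ← hq, hy] at r4
    exact r4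
  obtain ⟨a, b, hab, hfab⟩ := Fintype.exists_ne_map_eq_of_card_lt
    (fun k : Fin (n + 1) => f^[(k : ℕ)] i) (by simp)
  rcases lt_or_gt_of_ne hab with hlt | hlt
  · exact key a b hlt (by omega) hfab
  · exact key b a hlt (by omega) hfab.symm

theorem ks {A : Type*} [AddCommGroup A] (hdiv : ∀ N : ℕ, 0 < N → ∀ x : A, ∃ y, N • y = x)
    {K : Type*} [Field K] {𝓔 : Type*} [Ring 𝓔] [Algebra K 𝓔] {H : A → Submodule K 𝓔}
    (h : GrD K H) {n : ℕ} {p : Fin n → 𝓔} (hp : ∀ i, p i ∈ H 0) (h2 : ∀ i, p i * p i = p i)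
    (ho : ∀ i j, i ≠ j → p i * p j = 0) (hs : ∑ i, p i = 1) (hne : ∀ i, p i ≠ 0)
    (hprim : ∀ i u, u ∈ H 0 → u * u = u → p i * u = u → u * p i = u → u = 0 ∨ u = p i) (x : A) :
    ∃ θ ∈ H x, ∃ θ' ∈ H (-x), θ * θ' = 1 ∧ θ' * θ = 1 ∧ ∀ i, p i * θ = θ * p i := by
  choose α hα β hβ a1 a2 a3 a4 a5 a6 using rel_self hdiv h hp h2 hs hne hprim x
  have hpα : ∀ i j, i ≠ j → p i * α j = 0 := by
    intro i j hij
    rw [← a1 j, ← mul_assoc, ho i j hij, zero_mul]
  have hαp : ∀ i j, j ≠ i → α j * p i = 0 := by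
    intro i j hij
    rw [← a2 j, mul_assoc, ho j i hij, mul_zero]
  have hαβ : ∀ i j, j ≠ i → α i * β j = 0 := by
    intro i j hij
    rw [← a3 j, ← mul_assoc, hαp j i hij.symm, zero_mul]
  have hβα : ∀ i j, j ≠ i → β i * α j = 0 := by
    intro i j hij
    rw [← a4 i, mul_assoc, hpα i j hij.symm, mul_zero]
  refine ⟨∑ i, α i, Submodule.sum_mem _ fun i _ => hα i, ∑ i, β i,
    Submodule.sum_mem _ fun i _ => hβ i, ?_, ?_, ?_⟩
  · rw [Finset.sum_mul_sum, ← hs]
    refine Finset.sum_congr rfl fun i _ => ?_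
    rw [Finset.sum_eq_single i (fun j _ hj => hαβ i j hj)
      (fun hi => absurd (Finset.mem_univ i) hi), a6]
  · rw [Finset.sum_mul_sum, ← hs]
    refine Finset.sum_congr rfl fun i _ => ?_
    rw [Finset.sum_eq_single i (fun j _ hj => hβα i j hj)
      (fun hi => absurd (Finset.mem_univ i) hi), a5]
  · intro i
    rw [Finset.mul_sum, Finset.sum_mul,
      Finset.sum_eq_single i (fun j _ hj => hpα i j hj.symm)
        (fun hi => absurd (Finset.mem_univ i) hi),
      Finset.sum_eq_single i (fun j _ hj => hαp i j hj)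
        (fun hi => absurd (Finset.mem_univ i) hi), a1, a2]

end Pool.Agent.Work.MP_6d379e_ag.Gs
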