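import Pool.Agent.Work.MP_6d379e_ag.Gs.HomC
import Pool.Agent.Work.MP_6d379e_ag.Gs.HomB
import Pool.Agent.Work.MP_6d379e_ag.Gs.KS
import Pool.Agent.Work.MP_6d379e_ag.Ab.PrimDec

/-!
# Decomposition, and isomorphisms to the translates compatible with it   (size M-L)

* `endS_finite` : `HomV E E Φ` iff `Φ` is a section of `homB E E` (`homV_iff_sec`), `FinSec`.
* `exists_cdec` : `prim_dec` for the algebra `endS E`.
* `exists_theta` : let `𝓔 = Module.End K (A → Fin n → K)`.  For `Φ : A → Matrix` and `x : A` let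
  `op x Φ ∈ 𝓔` be the operator `(op x Φ s) w = Φ (w - x) *ᵥ s (w - x)`; it is linear in `Φ`, injective
  (test on functions supported at one point), and `op y Ψ * op x Φ = op (x + y) (z ↦ Ψ (x + z) * Φ z)`,
  `op 0 1 = 1`.  Let `H x` be the image of the space of `Φ` with `HomV E (tr h x E) Φ` under `op x`.
  It is `GrD K H`: `mul` by `homV_cmp` (note `a * b ∈ H (x + y)` for `a ∈ H x`, `b ∈ H y`: the
  composition with the roles exchanged gives degree `y + x`), `one` by `homV_id` and `tr_zero_iff`,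
  `fin` by `endS_finite` and `tr_zero_iff`, `inv` by homogeneity and `homV_back`.
  Apply `ks` to the idempotents `op 0 (p i)`.  `θ = op x Θ`; since `θ` has an inverse `op (-x) Θ'`,
  `Θ' (x + z) * Θ z = 1`, so `Θ z` is invertible; `p i θ = θ p i` reads
  `p i (x + z) * Θ z = Θ z * p i z`.
-/

namespace Pool.Agent.Work.MP_6d379e_ag.Gs

universe u

variable {K : Type*} [Field K] {A : Type u} [AddCommGroup A] {G : GSp K A} {G2 : GSp K (A × A)}
variable {n : ℕ}

/-- a decomposition into primitive orthogonal idempotents -/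
structure CDec (E : VB G (Fin n)) {r : ℕ} (p : Fin r → A → Matrix (Fin n) (Fin n) K) :
    Prop where
  hom : ∀ i, HomV E E (p i)
  idem : ∀ i y, p i y * p i y = p i y
  orth : ∀ i j, i ≠ j → ∀ y, p i y * p j y = 0
  sum : ∀ y, ∑ i, p i y = 1
  ne : ∀ i, ∃ y, p i y ≠ 0
  prim : ∀ i u, HomV E E u → (∀ y, u y * u y = u y) → (∀ y, p i y * u y = u y) →
    (∀ y, u y * p i y = u y) → (∀ y, u y = 0) ∨ ∀ y, u y = p i y

theorem endS_finite (hfin : FinSec G) (E : VB G (Fin n)) : FiniteDimensional K (endS E) := by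
  have : FiniteDimensional K (Sec (homB E E)) := hfin _ _
  let f : endS E →ₗ[K] Sec (homB E E) :=
    { toFun := fun Φ => ⟨fun x p => Φ.1 x p.1 p.2, (homV_iff_sec E E Φ.1).1 Φ.2⟩
      map_add' := fun _ _ => rfl
      map_smul' := fun _ _ => rfl }
  refine FiniteDimensional.of_injective f fun Φ Ψ h => ?_
  apply Subtype.ext
  funext x
  ext a b
  have h2 := congrArg Subtype.val h
  exact congrFun (congrFun h2 x) (a, b)

theorem exists_cdec (hfin : FinSec G) (E : VB G (Fin n)) :
    ∃ (r : ℕ) (p : Fin r → A → Matrix (Fin n) (Fin n) K), CDec E p := by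
  have := endS_finite hfin E
  obtain ⟨r, p, h1, h2, h3, h4, h5⟩ := Pool.Agent.Work.MP_6d379e_ag.Ab.prim_dec K (endS E)
  refine ⟨r, fun i => (p i).1, ?_, ?_, ?_, ?_, ?_, ?_⟩
  · exact fun i => (p i).2
  · exact fun i y => congrFun (congrArg Subtype.val (h1 i)) y
  · exact fun i j hij y => congrFun (congrArg Subtype.val (h2 i j hij)) y
  · intro y
    have h := congrFun (congrArg Subtype.val h3) y
    have h' : ((∑ i, p i : endS E) : A → Matrix (Fin n) (Fin n) K) =
        ∑ i, ((p i : endS E) : A → Matrix (Fin n) (Fin n) K) := by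
      push_cast
      rfl
    rw [h', Finset.sum_apply] at h
    exact h
  · intro i
    by_contra hcon
    push Not at hcon
    exact h4 i (Subtype.ext (funext hcon))
  · intro i u hu hi hl hr
    rcases h5 i ⟨u, hu⟩ (Subtype.ext (funext hi)) (Subtype.ext (funext hl))
      (Subtype.ext (funext hr)) with h | h
    · exact Or.inl fun y => congrFun (congrArg Subtype.val h) y
    · exact Or.inr fun y => congrFun (congrArg Subtype.val h) y

/-- the weighted composition operator -/
private def opL (x : A) :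
    (A → Matrix (Fin n) (Fin n) K) →ₗ[K] Module.End K (A → Fin n → K) where
  toFun Φ :=
    { toFun := fun s w => (Φ (w - x)).mulVec (s (w - x))
      map_add' := fun s t => by
        funext w
        exact Matrix.mulVec_add _ _ _
      map_smul' := fun c s => by
        funext w
        exact Matrix.mulVec_smul (Φ (w - x)) c (s (w - x)) }
  map_add' Φ Ψ := by
    apply LinearMap.ext
    intro s
    funext w
    exact Matrix.add_mulVec (Φ (w - x)) (Ψ (w - x)) (s (w - x))
  map_smul' c Φ := by
    apply LinearMap.ext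
    intro s
    funext w
    exact Matrix.smul_mulVec c (Φ (w - x)) (s (w - x))

private theorem opL_apply (x : A) (Φ : A → Matrix (Fin n) (Fin n) K) (s : A → Fin n → K) (w : A) :
    opL x Φ s w = (Φ (w - x)).mulVec (s (w - x)) := rfl

private theorem opL_inj {x : A} {Φ Ψ : A → Matrix (Fin n) (Fin n) K}
    (h : opL x Φ = opL x Ψ) : ∀ z, Φ z = Ψ z := by
  intro z
  ext a b
  have h2 := congrFun (congrFun (congrArg (fun T : Module.End K (A → Fin n → K) =>
    T fun _ => Pi.single b 1) h) (z + x)) a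
  simp only [opL_apply, add_sub_cancel_right, Matrix.mulVec_single_one, Matrix.col_apply] at h2
  exact h2

private theorem opL_mul (x y : A) (Φ Ψ : A → Matrix (Fin n) (Fin n) K) :
    opL x Φ * opL y Ψ = opL (y + x) fun z => Φ (y + z) * Ψ z := by
  apply LinearMap.ext
  intro s
  funext w
  show (Φ (w - x)).mulVec ((Ψ (w - x - y)).mulVec (s (w - x - y))) =
    (Φ (y + (w - (y + x))) * Ψ (w - (y + x))).mulVec (s (w - (y + x)))
  have e1 : w - x - y = w - (y + x) := by abel
  have e2 : y + (w - (y + x)) = w - x := by abel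
  rw [Matrix.mulVec_mulVec, e1, e2]

private theorem opL_zero_mul (x : A) (Φ Ψ : A → Matrix (Fin n) (Fin n) K) :
    opL 0 Φ * opL x Ψ = opL x fun z => Φ (x + z) * Ψ z := by
  rw [opL_mul, add_zero]

private theorem opL_mul_zero (x : A) (Φ Ψ : A → Matrix (Fin n) (Fin n) K) :
    opL x Φ * opL 0 Ψ = opL x fun z => Φ z * Ψ z := by
  rw [opL_mul, zero_add]
  simp only [zero_add]

private theorem opL_one : opL (0 : A) (fun _ => (1 : Matrix (Fin n) (Fin n) K)) = 1 := by
  apply LinearMap.ext
  intro s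
  funext w
  rw [opL_apply, Matrix.one_mulVec, sub_zero]
  rfl

/-- the space of homomorphisms -/
private def homS (E F : VB G (Fin n)) : Submodule K (A → Matrix (Fin n) (Fin n) K) where
  carrier := {Φ | HomV E F Φ}
  add_mem' h h' := homV_add h h'
  zero_mem' := by
    intro i j a b
    refine G.reg_congr _ _ _ (G.reg_const _ 0 (G.adm_inter _ _ (cov_range_adm E.cov i)
      (cov_range_adm F.cov j))) fun x _ => ?_
    simp
  smul_mem' c _ h := homV_smul c h

private theorem grD (h : GGrp G G2) (hfin : FinSec G) {E : VB G (Fin n)} (hE : Homog h E) :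
    GrD K fun x : A => (homS E (tr h x E)).map (opL x) := by
  refine ⟨?_, ?_, ?_, ?_⟩
  · exact ⟨fun _ => 1, (tr_zero_iff h).2 (homV_id E), opL_one⟩
  · rintro x y _ _ ⟨Φ, hΦ, rfl⟩ ⟨Ψ, hΨ, rfl⟩
    have h1 := homV_cmp h (x := y) (y := x) hΨ hΦ
    rw [add_comm x y]
    exact ⟨_, h1, (opL_mul x y Φ Ψ).symm⟩
  · have := endS_finite hfin E
    have h1 : homS E (tr h 0 E) = Subalgebra.toSubmodule (endS E) := by
      ext Φ
      exact tr_zero_iff h
    have : FiniteDimensional K (homS E (tr h 0 E)) := by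
      rw [h1]
      exact endS_finite hfin E
    infer_instance
  · intro x
    obtain ⟨Φ, hΦ, hu⟩ := hE x
    refine ⟨opL x Φ, ⟨Φ, hΦ, rfl⟩, opL (-x) fun w => (Φ (-x + w))⁻¹,
      ⟨_, homV_back h hΦ hu, rfl⟩, ?_, ?_⟩
    · rw [opL_mul, neg_add_cancel, ← opL_one]
      congr 1
      funext z
      exact Matrix.mul_nonsing_inv _ (hu _)
    · rw [opL_mul, add_neg_cancel, ← opL_one]
      congr 1
      funext z
      rw [neg_add_cancel_left]
      exact Matrix.nonsing_inv_mul _ (hu _)

theorem exists_theta (hdiv : ∀ N : ℕ, 0 < N → ∀ x : A, ∃ y, N • y = x) (h : GGrp G G2)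
    (hfin : FinSec G) {E : VB G (Fin n)} (hE : Homog h E) {r : ℕ}
    {p : Fin r → A → Matrix (Fin n) (Fin n) K} (hp : CDec E p) (x : A) :
    ∃ θ : A → Matrix (Fin n) (Fin n) K, HomV E (tr h x E) θ ∧ (∀ y, IsUnit (θ y).det) ∧
      ∀ i y, p i (x + y) * θ y = θ y * p i y := by
  have hks := ks hdiv (grD h hfin hE) (p := fun i => opL 0 (p i))
    (fun i => ⟨p i, (tr_zero_iff h).2 (hp.hom i), rfl⟩)
    (fun i => by
      rw [opL_mul_zero]
      congr 1
      funext z
      exact hp.idem i z)
    (fun i j hij => by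
      rw [opL_mul_zero]
      have h1 : (fun z => p i z * p j z) = 0 := by
        funext z
        exact hp.orth i j hij z
      rw [h1, map_zero])
    (by
      rw [← map_sum, ← opL_one]
      congr 1
      funext z
      rw [Finset.sum_apply]
      exact hp.sum z)
    (fun i h0 => by
      obtain ⟨y, hy⟩ := hp.ne i
      have h1 : opL 0 (p i) = opL 0 0 := by
        rw [map_zero]
        exact h0
      exact hy (opL_inj h1 y))
    (by
      rintro i _ ⟨U, hU, rfl⟩ h1 h2 h3
      rw [opL_mul_zero] at h1 h2 h3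
      rcases hp.prim i U ((tr_zero_iff h).1 hU) (opL_inj h1) (opL_inj h2) (opL_inj h3) with h4 | h4
      · left
        have h5 : U = 0 := funext h4
        rw [h5, map_zero]
      · right
        have h5 : U = p i := funext h4
        rw [h5]) x
  obtain ⟨_, ⟨Θ, hΘ, rfl⟩, _, ⟨Θ', hΘ', rfl⟩, h1, h2, h3⟩ := hks
  refine ⟨Θ, hΘ, fun y => ?_, fun i y => ?_⟩
  · rw [opL_mul, add_neg_cancel, ← opL_one] at h2
    exact Matrix.isUnit_det_of_left_inverse (opL_inj h2 y)
  · have h4 := h3 i
    rw [opL_zero_mul, opL_mul_zero] at h4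
    exact opL_inj h4 y

end Pool.Agent.Work.MP_6d379e_ag.Gs
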