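import Mathlib

/-!
# Homogeneous vector bundles on abeloids, general part: definitions (FIXED, do not change)

* `GSp K X` : a G-topology on the set `X` (admissible sets `adm`, admissible coverings `cov`) with a
  sheaf of `K`-valued functions (`reg U f`: the restriction of `f` to `U` is a regular function),
  for which Zariski open coverings are admissible.  The points of a reduced rigid analytic space
  over an algebraically closed field `K` with its strong G-topology are an example.
* `Mor G H φ` : `φ` is a morphism.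
* `GGrp G G2` : `G` is a structure on the commutative group `A`, `G2` on `A × A`, such that the
  projections, the addition and the inclusions of the fibres are morphisms.
* `VB G ν` : a vector bundle with fibre `ν → K` at every point, given by frames `e i` over the
  members `U i` of an admissible covering, with regular transition functions.
* `SecOn E S σ` : `σ` is a regular section over `S`; `Sec E` : the space of global sections.
* `HomV E F Φ` : `Φ` is a homomorphism of vector bundles.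
* `VB.pull` : pull back.  `tr x E` : pull back under the translation `y ↦ x + y`.  `fib x F` :
  restriction of a bundle on `A × A` to `{x} × A`.
* `Homog E` : `E` is isomorphic to all its translates.
* `FinSec G` : spaces of global sections are finite-dimensional.
* `DirIm G G2` : the theorem on direct images under the first projection `A × A → A`: if the
  dimension of the space of global sections of `F` on the fibres `{x} × A` is constant, then there
  is an admissible covering of `A` over whose members every global section of a fibre extends.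
-/

namespace Pool.Agent.Work.MP_6d379e_ag.Gs

universe u

/-- G-topology with a sheaf of functions -/
structure GSp (K : Type*) [Field K] (X : Type u) where
  adm : Set X → Prop
  cov : Set X → Set (Set X) → Prop
  reg : Set X → (X → K) → Prop
  adm_univ : adm Set.univ
  adm_inter : ∀ U V, adm U → adm V → adm (U ∩ V)
  cov_adm : ∀ U 𝒰, cov U 𝒰 → adm U ∧ ∀ V ∈ 𝒰, adm V ∧ V ⊆ U
  cov_mem : ∀ U 𝒰, cov U 𝒰 → ∀ x ∈ U, ∃ V ∈ 𝒰, x ∈ V
  cov_self : ∀ U, adm U → cov U {U}
  cov_inter : ∀ U 𝒰 W, cov U 𝒰 → adm W → W ⊆ U → cov W {V' | ∃ V ∈ 𝒰, V' = V ∩ W}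
  cov_trans : ∀ U 𝒰 (𝒱 : Set X → Set (Set X)), cov U 𝒰 → (∀ V ∈ 𝒰, cov V (𝒱 V)) →
    cov U {W | ∃ V ∈ 𝒰, W ∈ 𝒱 V}
  reg_congr : ∀ U f g, reg U f → (∀ x ∈ U, f x = g x) → reg U g
  reg_mono : ∀ U V f, reg U f → adm V → V ⊆ U → reg V f
  reg_glue : ∀ U 𝒰 f, cov U 𝒰 → (∀ V ∈ 𝒰, reg V f) → reg U f
  reg_const : ∀ U c, adm U → reg U fun _ => c
  reg_add : ∀ U f g, reg U f → reg U g → reg U fun x => f x + g x
  reg_mul : ∀ U f g, reg U f → reg U g → reg U fun x => f x * g x
  reg_inv : ∀ U f, reg U f → (∀ x ∈ U, f x ≠ 0) → reg U fun x => (f x)⁻¹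
  zar : ∀ U (𝓕 : Set (X → K)), adm U → (∀ f ∈ 𝓕, reg U f) → (∀ x ∈ U, ∃ f ∈ 𝓕, f x ≠ 0) →
    cov U {V | ∃ f ∈ 𝓕, V = {x | x ∈ U ∧ f x ≠ 0}}

variable {K : Type*} [Field K]

/-- morphisms -/
structure Mor {X Y : Type u} (G : GSp K X) (H : GSp K Y) (φ : X → Y) : Prop where
  adm : ∀ V, H.adm V → G.adm (φ ⁻¹' V)
  cov : ∀ V 𝒱, H.cov V 𝒱 → G.cov (φ ⁻¹' V) {U | ∃ W ∈ 𝒱, U = φ ⁻¹' W}
  reg : ∀ V f, H.reg V f → G.reg (φ ⁻¹' V) fun x => f (φ x)

/-- a group object structure -/
structure GGrp {A : Type u} [AddCommGroup A] (G : GSp K A) (G2 : GSp K (A × A)) : Prop where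
  fst : Mor G2 G fun z : A × A => z.1
  snd : Mor G2 G fun z : A × A => z.2
  add : Mor G2 G fun z : A × A => z.1 + z.2
  inr : ∀ x : A, Mor G G2 fun y => (x, y)
  inl : ∀ y : A, Mor G G2 fun x => (x, y)

/-- vector bundles -/
structure VB {X : Type u} (G : GSp K X) (ν : Type) [Fintype ν] [DecidableEq ν] where
  /-- the index set of the covering -/
  I : Type u
  /-- the members of the covering -/
  U : I → Set X
  /-- the frames -/
  e : I → X → Matrix ν ν K
  cov : G.cov Set.univ (Set.range U)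
  unit : ∀ i, ∀ x ∈ U i, IsUnit (e i x).det
  compat : ∀ i j a b, G.reg (U i ∩ U j) fun x => ((e i x)⁻¹ * e j x) a b

variable {X : Type u} {G : GSp K X} {ν ν' : Type} [Fintype ν] [DecidableEq ν]
variable [Fintype ν'] [DecidableEq ν']

/-- regular sections over a subset `S` -/
def SecOn (E : VB G ν) (S : Set X) (σ : X → ν → K) : Prop :=
  ∀ i a, G.reg (E.U i ∩ S) fun x => ((E.e i x)⁻¹.mulVec (σ x)) a

/-- the space of global sections -/
def Sec (E : VB G ν) : Submodule K (X → ν → K) where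
  carrier := {σ | ∀ i a, G.reg (E.U i) fun x => ((E.e i x)⁻¹.mulVec (σ x)) a}
  add_mem' := by
    intro σ τ h h' i a
    refine G.reg_congr _ _ _ (G.reg_add _ _ _ (h i a) (h' i a)) fun x _ => ?_
    simp only [Pi.add_apply, Matrix.mulVec_add]
  zero_mem' := by
    intro i a
    refine G.reg_congr _ _ _ (G.reg_const _ 0 (G.cov_adm _ _ E.cov |>.2 _ ⟨i, rfl⟩ |>.1))
      fun x _ => ?_
    simp
  smul_mem' := by
    intro c σ h i a
    refine G.reg_congr _ _ _ (G.reg_mul _ _ _
      (G.reg_const _ c (G.cov_adm _ _ E.cov |>.2 _ ⟨i, rfl⟩ |>.1)) (h i a)) fun x _ => ?_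
    simp only [Pi.smul_apply, Matrix.mulVec_smul, smul_eq_mul]

/-- homomorphisms of vector bundles -/
def HomV (E : VB G ν) (F : VB G ν') (Φ : X → Matrix ν' ν K) : Prop :=
  ∀ i j a b, G.reg (E.U i ∩ F.U j) fun x => ((F.e j x)⁻¹ * Φ x * E.e i x) a b

/-- pull back -/
def VB.pull {Y : Type u} {H : GSp K Y} (E : VB H ν) {φ : X → Y} (hφ : Mor G H φ) : VB G ν where
  I := E.I
  U := fun i => φ ⁻¹' E.U i
  e := fun i x => E.e i (φ x)
  cov := by
    have h := hφ.cov _ _ E.cov
    have h2 : {U | ∃ W ∈ Set.range E.U, U = φ ⁻¹' W} = Set.range fun i => φ ⁻¹' E.U i := by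
      ext V
      constructor
      · rintro ⟨W, ⟨i, rfl⟩, rfl⟩
        exact ⟨i, rfl⟩
      · rintro ⟨i, rfl⟩
        exact ⟨E.U i, ⟨i, rfl⟩, rfl⟩
    rw [h2, Set.preimage_univ] at h
    exact h
  unit := fun i x hx => E.unit i (φ x) hx
  compat := fun i j a b => hφ.reg _ _ (E.compat i j a b)

section group

variable {A : Type u} [AddCommGroup A] {G : GSp K A} {G2 : GSp K (A × A)}

theorem mor_comp {X Y Z : Type u} {G : GSp K X} {H : GSp K Y} {J : GSp K Z} {φ : X → Y}
    {ψ : Y → Z} (hφ : Mor G H φ) (hψ : Mor H J ψ) : Mor G J fun x => ψ (φ x) := by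
  refine ⟨fun V hV => hφ.adm _ (hψ.adm _ hV), fun V 𝒱 h => ?_, fun V f hf =>
    hφ.reg _ _ (hψ.reg _ _ hf)⟩
  have h1 := hφ.cov _ _ (hψ.cov _ _ h)
  have h2 : {U | ∃ W ∈ {U | ∃ W ∈ 𝒱, U = ψ ⁻¹' W}, U = φ ⁻¹' W} =
      {U | ∃ W ∈ 𝒱, U = (fun x => ψ (φ x)) ⁻¹' W} := by
    ext V
    constructor
    · rintro ⟨W, ⟨W', h', rfl⟩, rfl⟩
      exact ⟨W', h', rfl⟩
    · rintro ⟨W, h', rfl⟩
      exact ⟨ψ ⁻¹' W, ⟨W, h', rfl⟩, rfl⟩
  rw [h2] at h1
  exact h1

theorem mor_tr (h : GGrp G G2) (x : A) : Mor G G fun y : A => x + y :=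
  mor_comp (φ := fun y : A => (x, y)) (ψ := fun z : A × A => z.1 + z.2) (h.inr x) h.add

/-- the pull back under the translation by `x` -/
def tr (h : GGrp G G2) (x : A) (E : VB G ν) : VB G ν := E.pull (mor_tr h x)

/-- the restriction to a fibre of the first projection -/
def fib (h : GGrp G G2) (x : A) (F : VB G2 ν) : VB G ν := F.pull (h.inr x)

/-- homogeneous bundles -/
def Homog (h : GGrp G G2) (E : VB G ν) : Prop :=
  ∀ x : A, ∃ Φ : A → Matrix ν ν K, HomV E (tr h x E) Φ ∧ ∀ y, IsUnit (Φ y).det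

/-- finiteness of global sections -/
def FinSec (G : GSp K A) : Prop :=
  ∀ (ν : Type) [Fintype ν] [DecidableEq ν] (E : VB G ν), FiniteDimensional K (Sec E)

/-- the theorem on direct images for the first projection -/
def DirIm (h : GGrp G G2) : Prop :=
  ∀ (ν : Type) [Fintype ν] [DecidableEq ν] (F : VB G2 ν) (d : ℕ),
    (∀ x : A, Module.finrank K (Sec (fib h x F)) = d) →
    ∃ 𝒮 : Set (Set A), G.cov Set.univ 𝒮 ∧ ∀ S ∈ 𝒮, ∀ x ∈ S, ∀ σ0 ∈ Sec (fib h x F),
      ∃ σ : A × A → ν → K, SecOn F {z | z.1 ∈ S} σ ∧ ∀ y, σ (x, y) = σ0 y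

/-- matrices of regular functions -/
def RM {X : Type u} (G : GSp K X) {α β : Type} (U : Set X) (M : X → Matrix α β K) : Prop :=
  ∀ a b, G.reg U fun x => M x a b

/-- a family of homomorphisms `Φ x : E → tr x E`, parametrized by `x ∈ S` -/
def FamOn (G2 : GSp K (A × A)) (E : VB G ν) (S : Set A) (Φ : A → A → Matrix ν ν K) : Prop :=
  ∀ i j, RM G2 {z : A × A | z.1 ∈ S ∧ z.2 ∈ E.U i ∧ z.1 + z.2 ∈ E.U j}
    fun z => (E.e j (z.1 + z.2))⁻¹ * Φ z.1 z.2 * E.e i z.2

/-- the line bundle with frames `l i` over the members of the covering of `E` -/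
def lineB (E : VB G ν) (l : E.I → A → K) (h0 : ∀ i, ∀ x ∈ E.U i, l i x ≠ 0)
    (hc : ∀ i j, G.reg (E.U i ∩ E.U j) fun x => (l i x)⁻¹ * l j x) : VB G Unit where
  I := E.I
  U := E.U
  e := fun i x => Matrix.diagonal fun _ => l i x
  cov := E.cov
  unit := fun i x hx => by
    rw [Matrix.det_diagonal]
    simpa using h0 i x hx
  compat := fun i j a b => by
    refine G.reg_congr _ _ _ (hc i j) fun x hx => ?_
    have h : (Matrix.diagonal fun _ : Unit => l i x)⁻¹ = Matrix.diagonal fun _ => (l i x)⁻¹ := by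
      apply Matrix.inv_eq_right_inv
      rw [Matrix.diagonal_mul_diagonal, ← Matrix.diagonal_one]
      congr 1
      funext a
      exact mul_inv_cancel₀ (h0 i x hx.1)
    rw [h, Matrix.diagonal_mul_diagonal]
    simp

/-- The structure theorem for `E`: up to isomorphism (the identity matrix), `E` has frames with
block diagonal upper triangular transition matrices; `s a` is the block of the `a`-th basis vector,
and all diagonal entries of the block `t` are the transition function of the homogeneous line bundle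
with frames `l t`.  In other words `E` is a direct sum of bundles which are successive extensions of
copies of one homogeneous line bundle, that is tensor products of a unipotent bundle with a
homogeneous line bundle. -/
def SumUL (h : GGrp G G2) {n : ℕ} (E : VB G (Fin n)) : Prop :=
  ∃ (r : ℕ) (s : Fin n → Fin r) (E' : VB G (Fin n)) (l : Fin r → E'.I → A → K)
    (h0 : ∀ t i, ∀ x ∈ E'.U i, l t i x ≠ 0)
    (hc : ∀ t i j, G.reg (E'.U i ∩ E'.U j) fun x => (l t i x)⁻¹ * l t j x),
    HomV E' E (fun _ => 1) ∧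
    (∀ t, Homog h (lineB E' (l t) (h0 t) (hc t))) ∧
    ∀ i j, ∀ x ∈ E'.U i ∩ E'.U j, ∀ a b : Fin n,
      (s a ≠ s b ∨ b < a → ((E'.e i x)⁻¹ * E'.e j x) a b = 0) ∧
      ((E'.e i x)⁻¹ * E'.e j x) a a = (l (s a) i x)⁻¹ * l (s a) j x

end group

end Pool.Agent.Work.MP_6d379e_ag.Gs
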