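import Pool.Agent.Work.MP_6d379e_ag.Gs.RegM

/-!
# Composition, inverse and translation of homomorphisms   (size M-L)

* `homV_comp` : on `E.U i ∩ F'.U k ∩ F.U j` the matrix of the composite is the product of the
  matrices of `Ψ` and `Φ` in the frames; use `rm_local` for the covering `F.U j`.
* `homV_inv` : the matrix of `Φ⁻¹` is the inverse matrix; `rm_inv`.
* `homV_tr` : `Mor` of the translation: `Φ (x + y)` is a homomorphism `tr x E → tr x F`
  (`reg` pulled back along `y ↦ x + y`).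
* `homV_tr_tr` : the sets and frames of `tr x (tr y E)` at `z` are those of `E` at `y + (x + z)`;
  rewrite by associativity; `(y + x) + z = y + (x + z)`.
* `homV_cmp` : if `Φ : E → tr x E` and `Ψ : E → tr y E` then `z ↦ Ψ (x + z) * Φ z` is a homomorphism
  `E → tr (x + y) E`.
* `homV_back` : the inverse of `Φ : E → tr x E` translated by `-x` : `w ↦ (Φ (-x + w))⁻¹` is a
  homomorphism `E → tr (-x) E`.
* `tr_zero_iff` : `0 + y = y`.
* `endS` : the endomorphisms form a subalgebra of the algebra of all matrix functions.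
-/

namespace Pool.Agent.Work.MP_6d379e_ag.Gs

universe u

variable {K : Type*} [Field K]

section gen

variable {X : Type u} {G : GSp K X}
variable {ν ν' ν'' : Type} [Fintype ν] [DecidableEq ν] [Fintype ν'] [DecidableEq ν']
variable [Fintype ν''] [DecidableEq ν'']
variable {E : VB G ν} {F : VB G ν'} {F' : VB G ν''}

private theorem admE (E : VB G ν) (i : E.I) : G.adm (E.U i) :=
  ((G.cov_adm _ _ E.cov).2 _ ⟨i, rfl⟩).1

private theorem admEF (E : VB G ν) (F : VB G ν') (i : E.I) (j : F.I) : G.adm (E.U i ∩ F.U j) :=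
  G.adm_inter _ _ (admE E i) (admE F j)

theorem homV_congr {Φ Ψ : X → Matrix ν' ν K} (h : HomV E F Φ) (he : ∀ x, Ψ x = Φ x) :
    HomV E F Ψ := by
  have e : Ψ = Φ := funext he
  rw [e]
  exact h

theorem homV_id (E : VB G ν) : HomV E E fun _ => 1 := by
  intro i j a b
  refine G.reg_mono _ _ _ (G.reg_congr _ _ _ (E.compat j i a b) fun x _ => ?_)
    (admEF E E i j) fun x hx => ⟨hx.2, hx.1⟩
  rw [Matrix.mul_one]

theorem homV_comp {Ψ : X → Matrix ν'' ν' K} {Φ : X → Matrix ν' ν K} (hΨ : HomV F F' Ψ)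
    (hΦ : HomV E F Φ) : HomV E F' fun x => Ψ x * Φ x := by
  intro i k
  have key : RM G (E.U i ∩ F'.U k) fun x => (F'.e k x)⁻¹ * (Ψ x * Φ x) * E.e i x := by
    refine rm_local F.cov (admEF E F' i k) fun j => ?_
    have hadm : G.adm (F.U j ∩ (E.U i ∩ F'.U k)) := G.adm_inter _ _ (admE F j) (admEF E F' i k)
    have h1 : RM G (F.U j ∩ (E.U i ∩ F'.U k)) fun x => (F'.e k x)⁻¹ * Ψ x * F.e j x :=
      rm_mono (fun a b => hΨ j k a b) hadm fun x hx => ⟨hx.1, hx.2.2⟩
    have h2 : RM G (F.U j ∩ (E.U i ∩ F'.U k)) fun x => (F.e j x)⁻¹ * Φ x * E.e i x :=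
      rm_mono (fun a b => hΦ i j a b) hadm fun x hx => ⟨hx.2.1, hx.1⟩
    refine rm_congr (rm_mul hadm h1 h2) fun x hx => ?_
    have hu := F.unit j x hx.1
    simp only [Matrix.mul_assoc]
    rw [Matrix.mul_nonsing_inv_cancel_left _ _ hu]
  exact key

theorem homV_add {Φ Ψ : X → Matrix ν' ν K} (h : HomV E F Φ) (h' : HomV E F Ψ) :
    HomV E F fun x => Φ x + Ψ x := by
  intro i j a b
  refine G.reg_congr _ _ _ (G.reg_add _ _ _ (h i j a b) (h' i j a b)) fun x _ => ?_
  rw [Matrix.mul_add, Matrix.add_mul, Matrix.add_apply]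

theorem homV_smul (c : K) {Φ : X → Matrix ν' ν K} (h : HomV E F Φ) :
    HomV E F fun x => c • Φ x := by
  intro i j a b
  refine G.reg_congr _ _ _ (G.reg_mul _ _ _ (G.reg_const _ c (admEF E F i j)) (h i j a b))
    fun x _ => ?_
  rw [Matrix.mul_smul, Matrix.smul_mul, Matrix.smul_apply, smul_eq_mul]

theorem homV_inv {F : VB G ν} {Φ : X → Matrix ν ν K} (h : HomV E F Φ)
    (hu : ∀ x, IsUnit (Φ x).det) : HomV F E fun x => (Φ x)⁻¹ := by
  intro i j
  have hadm : G.adm (F.U i ∩ E.U j) := admEF F E i j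
  have h1 : RM G (F.U i ∩ E.U j) fun x => (F.e i x)⁻¹ * Φ x * E.e j x :=
    rm_mono (fun a b => h j i a b) hadm fun x hx => ⟨hx.2, hx.1⟩
  have h2 := rm_inv hadm h1 fun x hx => by
    rw [Matrix.det_mul, Matrix.det_mul]
    exact ((Matrix.isUnit_nonsing_inv_det _ (F.unit i x hx.1)).mul (hu x)).mul (E.unit j x hx.2)
  have h3 : RM G (F.U i ∩ E.U j) fun x => (E.e j x)⁻¹ * (Φ x)⁻¹ * F.e i x := by
    refine rm_congr h2 fun x hx => ?_
    rw [Matrix.mul_inv_rev, Matrix.mul_inv_rev, Matrix.nonsing_inv_nonsing_inv _ (F.unit i x hx.1),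
      Matrix.mul_assoc]
  exact h3

/-- the subalgebra of endomorphisms -/
def endS (E : VB G ν) : Subalgebra K (X → Matrix ν ν K) where
  carrier := {Φ | HomV E E Φ}
  mul_mem' := fun h h' => homV_comp h h'
  add_mem' := fun h h' => homV_add h h'
  algebraMap_mem' := fun c => homV_congr (homV_smul c (homV_id E)) fun x => by
    simp [Pi.algebraMap_apply, Algebra.algebraMap_eq_smul_one]

end gen

section grp

variable {A : Type u} [AddCommGroup A] {G : GSp K A} {G2 : GSp K (A × A)}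
variable {ν ν' : Type} [Fintype ν] [DecidableEq ν] [Fintype ν'] [DecidableEq ν']

theorem homV_tr (h : GGrp G G2) (x : A) {E : VB G ν} {F : VB G ν'} {Φ : A → Matrix ν' ν K}
    (hΦ : HomV E F Φ) : HomV (tr h x E) (tr h x F) fun y => Φ (x + y) := by
  intro i j a b
  exact (mor_tr h x).reg _ _ (hΦ i j a b)

theorem tr_zero_iff (h : GGrp G G2) {E F : VB G ν} {Φ : A → Matrix ν ν K} :
    HomV E (tr h 0 F) Φ ↔ HomV E F Φ := by
  have e : (fun z : A => 0 + z) = fun z => z := funext fun z => zero_add z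
  have key : ∀ i j a b, (G.reg (E.U i ∩ (tr h 0 F).U j)
      fun z => (((tr h 0 F).e j z)⁻¹ * Φ z * E.e i z) a b) =
      G.reg (E.U i ∩ F.U j) fun z => ((F.e j z)⁻¹ * Φ z * E.e i z) a b := by
    intro i j a b
    change G.reg (E.U i ∩ (fun z : A => 0 + z) ⁻¹' F.U j)
      (fun z => ((F.e j ((fun z : A => 0 + z) z))⁻¹ * Φ z * E.e i z) a b) = _
    rw [e]
    rfl
  constructor
  · intro H i j a b
    exact (key i j a b).mp (H i j a b)
  · intro H i j a b
    exact (key i j a b).mpr (H i j a b)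

theorem tr_tr_iff (h : GGrp G G2) (x y : A) {E F : VB G ν} {Φ : A → Matrix ν ν K} :
    HomV E (tr h x (tr h y F)) Φ ↔ HomV E (tr h (x + y) F) Φ := by
  have e : (fun z : A => y + (x + z)) = fun z => x + y + z := by
    funext z
    rw [← add_assoc, add_comm y x]
  have key : ∀ i j a b, (G.reg (E.U i ∩ (tr h x (tr h y F)).U j)
      fun z => (((tr h x (tr h y F)).e j z)⁻¹ * Φ z * E.e i z) a b) =
      G.reg (E.U i ∩ (tr h (x + y) F).U j)
        fun z => (((tr h (x + y) F).e j z)⁻¹ * Φ z * E.e i z) a b := by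
    intro i j a b
    change G.reg (E.U i ∩ (fun z : A => y + (x + z)) ⁻¹' F.U j)
      (fun z => ((F.e j ((fun z : A => y + (x + z)) z))⁻¹ * Φ z * E.e i z) a b) = _
    rw [e]
    rfl
  constructor
  · intro H i j a b
    exact (key i j a b).mp (H i j a b)
  · intro H i j a b
    exact (key i j a b).mpr (H i j a b)

theorem homV_cmp (h : GGrp G G2) {x y : A} {E : VB G ν} {Φ Ψ : A → Matrix ν ν K}
    (hΦ : HomV E (tr h x E) Φ) (hΨ : HomV E (tr h y E) Ψ) :
    HomV E (tr h (x + y) E) fun z => Ψ (x + z) * Φ z := by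
  have h1 : HomV (tr h x E) (tr h x (tr h y E)) fun z => Ψ (x + z) := homV_tr h x hΨ
  exact (tr_tr_iff h x y).mp (homV_comp h1 hΦ)

theorem homV_back (h : GGrp G G2) {x : A} {E : VB G ν} {Φ : A → Matrix ν ν K}
    (hΦ : HomV E (tr h x E) Φ) (hu : ∀ y, IsUnit (Φ y).det) :
    HomV E (tr h (-x) E) fun w => (Φ (-x + w))⁻¹ := by
  have h1 : HomV (tr h x E) E fun y => (Φ y)⁻¹ := homV_inv hΦ hu
  have h2 : HomV (tr h (-x) (tr h x E)) (tr h (-x) E) fun w => (Φ (-x + w))⁻¹ :=
    homV_tr h (-x) (Φ := fun y => (Φ y)⁻¹) h1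
  have h3 : HomV E (tr h (-x) (tr h x E)) fun _ => 1 := by
    rw [tr_tr_iff, neg_add_cancel, tr_zero_iff]
    exact homV_id E
  exact homV_congr (homV_comp h2 h3) fun w => (Matrix.mul_one _).symm

end grp

end Pool.Agent.Work.MP_6d379e_ag.Gs
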