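import Pool.Agent.Work.MP_6d379e_ag.Gs.HomB
import Pool.Agent.Work.MP_6d379e_ag.Gs.HomC

/-!
# Families of homomorphisms   (size M-L)

* `fam_hom` : for `x ∈ S` pull back the regular functions in `FamOn` along `y ↦ (x, y)` (`h.inr x`).
* `fam_slice` : pull back along `x ↦ (x, y)` (`h.inl y`).
* `fam_conj` : for endomorphisms `a`, `b` of `E` the family `a (x + y) * Φ x y * b y` is regular: on
  the set `z.1 ∈ S, z.2 ∈ E.U i, z.1 + z.2 ∈ E.U j` its matrix is the product of the matrix of `a` in the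
  frame `j` (pulled back along the addition), the matrix of `Φ`, and the matrix of `b` in the frame
  `i` (pulled back along the second projection); the set is admissible when `S` is.
* `fam_sum` : finite sums.
* `ext_fam` : apply `DirIm` to `F = homB (E.pull h.snd) (E.pull h.add)`, a bundle on `A × A`.  Its
  restriction to `{x} × A` has the same sections as `homB E (tr h x E)` (`homB_pull`; the pull backs
  of `E.pull h.snd` and `E.pull h.add` along `y ↦ (x, y)` have the same sets and frames as `E` and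
  `tr h x E`, so the conditions are the same by unfolding), that is the homomorphisms
  `E → tr h x E` (`homV_iff_sec`).  The dimension does not depend on `x`: composition with an
  isomorphism `E → tr h x E` (`Homog`, `homV_comp`, `homV_inv`) is a linear isomorphism from
  `End E` onto them.  A section over `{z | z.1 ∈ S}` is a family (`secOn_homB_iff`; the set
  `{z.1 ∈ S, z.2 ∈ E.U i, z.1 + z.2 ∈ E.U j}` is the intersection occurring there).
-/

namespace Pool.Agent.Work.MP_6d379e_ag.Gs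

universe u

variable {K : Type*} [Field K] {A : Type u} [AddCommGroup A] {G : GSp K A} {G2 : GSp K (A × A)}
variable {ν : Type} [Fintype ν] [DecidableEq ν] {E : VB G ν} {S : Set A}
variable {Φ : A → A → Matrix ν ν K}

theorem fam_adm (h : GGrp G G2) (E : VB G ν) (hS : G.adm S) (i j : E.I) :
    G2.adm {z : A × A | z.1 ∈ S ∧ z.2 ∈ E.U i ∧ z.1 + z.2 ∈ E.U j} :=
  G2.adm_inter _ _ (h.fst.adm _ hS)
    (G2.adm_inter _ _ (h.snd.adm _ (cov_range_adm E.cov i)) (h.add.adm _ (cov_range_adm E.cov j)))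

theorem fam_hom (h : GGrp G G2) (hΦ : FamOn G2 E S Φ) {x : A} (hx : x ∈ S) :
    HomV E (tr h x E) (Φ x) := by
  intro i j a b
  have h1 := (h.inr x).reg _ _ (hΦ i j a b)
  have h2 : (fun y : A => (x, y)) ⁻¹' {z : A × A | z.1 ∈ S ∧ z.2 ∈ E.U i ∧ z.1 + z.2 ∈ E.U j} =
      E.U i ∩ (tr h x E).U j := by
    ext y
    constructor
    · rintro ⟨_, h3, h4⟩
      exact ⟨h3, h4⟩
    · rintro ⟨h3, h4⟩
      exact ⟨hx, h3, h4⟩
  rw [h2] at h1
  exact h1

theorem fam_slice (h : GGrp G G2) (hΦ : FamOn G2 E S Φ) (i j : E.I) {y : A} (hy : y ∈ E.U i) :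
    RM G {x | x ∈ S ∧ x + y ∈ E.U j} fun x => (E.e j (x + y))⁻¹ * Φ x y * E.e i y := by
  intro a b
  have h1 := (h.inl y).reg _ _ (hΦ i j a b)
  have h2 : (fun x : A => (x, y)) ⁻¹' {z : A × A | z.1 ∈ S ∧ z.2 ∈ E.U i ∧ z.1 + z.2 ∈ E.U j} =
      {x | x ∈ S ∧ x + y ∈ E.U j} := by
    ext x
    constructor
    · rintro ⟨h3, _, h4⟩
      exact ⟨h3, h4⟩
    · rintro ⟨h3, h4⟩
      exact ⟨h3, hy, h4⟩
  rw [h2] at h1
  exact h1

private theorem fam_conj_alg {P P' Q Q' α β γ : Matrix ν ν K} (hP : P * P' = 1)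
    (hQ : Q * Q' = 1) :
    (P' * α * P) * (P' * β * Q) * (Q' * γ * Q) = P' * (α * β * γ) * Q := by
  calc (P' * α * P) * (P' * β * Q) * (Q' * γ * Q)
      = P' * α * (P * P') * β * (Q * Q') * γ * Q := by simp only [Matrix.mul_assoc]
    _ = P' * (α * β * γ) * Q := by
      rw [hP, hQ]
      simp only [Matrix.mul_assoc, Matrix.one_mul]

theorem fam_conj (h : GGrp G G2) (hS : G.adm S) (hΦ : FamOn G2 E S Φ)
    {a b : A → Matrix ν ν K} (ha : HomV E E a) (hb : HomV E E b) :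
    FamOn G2 E S fun x y => a (x + y) * Φ x y * b y := by
  intro i j
  have hadm := fam_adm h E hS i j
  have h1 : RM G2 {z : A × A | z.1 ∈ S ∧ z.2 ∈ E.U i ∧ z.1 + z.2 ∈ E.U j}
      fun z => (E.e j (z.1 + z.2))⁻¹ * a (z.1 + z.2) * E.e j (z.1 + z.2) := by
    refine rm_mono (rm_pull h.add (W := E.U j ∩ E.U j)
      (M := fun w => (E.e j w)⁻¹ * a w * E.e j w) fun c d => ha j j c d) hadm ?_
    rintro z ⟨_, _, h4⟩
    exact ⟨h4, h4⟩
  have h2 : RM G2 {z : A × A | z.1 ∈ S ∧ z.2 ∈ E.U i ∧ z.1 + z.2 ∈ E.U j}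
      fun z => (E.e i z.2)⁻¹ * b z.2 * E.e i z.2 := by
    refine rm_mono (rm_pull h.snd (W := E.U i ∩ E.U i)
      (M := fun w => (E.e i w)⁻¹ * b w * E.e i w) fun c d => hb i i c d) hadm ?_
    rintro z ⟨_, h3, _⟩
    exact ⟨h3, h3⟩
  refine rm_congr (rm_mul hadm (rm_mul hadm h1 (hΦ i j)) h2) ?_
  rintro z ⟨_, h3, h4⟩
  exact (fam_conj_alg (Matrix.mul_nonsing_inv _ (E.unit j _ h4))
    (Matrix.mul_nonsing_inv _ (E.unit i _ h3))).symm

theorem fam_sum (h : GGrp G G2) (hS : G.adm S) {ι : Type*} (s : Finset ι)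
    {Φ : ι → A → A → Matrix ν ν K} (hΦ : ∀ k ∈ s, FamOn G2 E S (Φ k)) :
    FamOn G2 E S fun x y => ∑ k ∈ s, Φ k x y := by
  intro i j
  refine rm_congr (rm_sum s (M := fun k (z : A × A) =>
    (E.e j (z.1 + z.2))⁻¹ * Φ k z.1 z.2 * E.e i z.2) (fam_adm h E hS i j)
    fun k hk => hΦ k hk i j) fun z _ => ?_
  rw [Matrix.mul_sum, Matrix.sum_mul]

/-- left multiplication by a matrix function, on sections of the bundle of homomorphisms -/
private def lmul (M : A → Matrix ν ν K) : (A → ν × ν → K) →ₗ[K] (A → ν × ν → K) where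
  toFun := fun σ y p => ∑ k, M y p.1 k * σ y (k, p.2)
  map_add' := by
    intro σ τ
    funext y p
    simp only [Pi.add_apply, mul_add, Finset.sum_add_distrib]
  map_smul' := by
    intro c σ
    funext y p
    simp only [Pi.smul_apply, smul_eq_mul, RingHom.id_apply, Finset.mul_sum]
    exact Finset.sum_congr rfl fun k _ => by ring

private theorem lmul_lmul {M N : A → Matrix ν ν K} (h : ∀ y, N y * M y = 1)
    (σ : A → ν × ν → K) : lmul N (lmul M σ) = σ := by
  funext y p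
  have h1 : (N y * M y * Matrix.of fun a b => σ y (a, b)) p.1 p.2 = σ y p := by
    rw [h y, Matrix.one_mul]
    rfl
  rw [Matrix.mul_assoc] at h1
  exact h1

private theorem finrank_eq_of_lmul {P Q : Submodule K (A → ν × ν → K)} {M N : A → Matrix ν ν K}
    (h1 : ∀ y, N y * M y = 1) (h2 : ∀ y, M y * N y = 1) (h3 : ∀ σ ∈ P, lmul M σ ∈ Q)
    (h4 : ∀ σ ∈ Q, lmul N σ ∈ P) : Module.finrank K P = Module.finrank K Q :=
  LinearEquiv.finrank_eq
    { toFun := fun σ => ⟨lmul M σ.1, h3 _ σ.2⟩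
      invFun := fun σ => ⟨lmul N σ.1, h4 _ σ.2⟩
      map_add' := fun σ τ => Subtype.ext (map_add (lmul M) σ.1 τ.1)
      map_smul' := fun c σ => Subtype.ext (map_smul (lmul M) c σ.1)
      left_inv := fun σ => Subtype.ext (lmul_lmul h1 σ.1)
      right_inv := fun σ => Subtype.ext (lmul_lmul h2 σ.1) }

/-- the bundle on `A × A` whose sections are families of homomorphisms -/
private noncomputable def famB (h : GGrp G G2) (E : VB G ν) : VB G2 (ν × ν) :=
  homB (E.pull h.snd) (E.pull h.add)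

private theorem famB_fib (h : GGrp G G2) (E : VB G ν) (x : A) (Φ : A → Matrix ν ν K) :
    (fun y (p : ν × ν) => Φ y p.1 p.2) ∈ Sec (fib h x (famB h E)) ↔
      HomV E (tr h x E) Φ := by
  have h1 := homB_pull (h.inr x) (E.pull h.snd) (E.pull h.add)
    (fun y (p : ν × ν) => Φ y p.1 p.2)
  have h2 := homV_iff_sec ((E.pull h.snd).pull (h.inr x)) ((E.pull h.add).pull (h.inr x)) Φ
  exact (h1.trans h2.symm).trans Iff.rfl

private theorem famB_finrank (h : GGrp G G2) (hE : Homog h E) (x : A) :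
    Module.finrank K (Sec (fib h x (famB h E))) =
      Module.finrank K (Sec (homB E E)) := by
  obtain ⟨Ψ, hΨ, hu⟩ := hE x
  have hi : HomV (tr h x E) E fun y => (Ψ y)⁻¹ := homV_inv hΨ hu
  refine (finrank_eq_of_lmul (M := Ψ) (N := fun y => (Ψ y)⁻¹)
    (fun y => Matrix.nonsing_inv_mul _ (hu y)) (fun y => Matrix.mul_nonsing_inv _ (hu y))
    ?_ ?_).symm
  · intro σ hσ
    have h1 : HomV E E fun y => (fun a b => σ y (a, b) : Matrix ν ν K) :=
      (homV_iff_sec E E fun y => (fun a b => σ y (a, b) : Matrix ν ν K)).2 hσ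
    exact (famB_fib h E x _).2 (homV_comp hΨ h1)
  · intro σ hσ
    have h1 : HomV E (tr h x E) fun y => (fun a b => σ y (a, b) : Matrix ν ν K) :=
      (famB_fib h E x fun y => (fun a b => σ y (a, b) : Matrix ν ν K)).1 hσ
    exact (homV_iff_sec E E _).1 (homV_comp hi h1)

theorem ext_fam (h : GGrp G G2) (hfin : FinSec G) (hdir : DirIm h) (hE : Homog h E) :
    ∃ 𝒮 : Set (Set A), G.cov Set.univ 𝒮 ∧ ∀ S ∈ 𝒮, ∀ x0 ∈ S, ∀ Φ0 : A → Matrix ν ν K,
      HomV E (tr h x0 E) Φ0 →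
      ∃ Φ : A → A → Matrix ν ν K, FamOn G2 E S Φ ∧ ∀ y, Φ x0 y = Φ0 y := by
  have _ := hfin
  obtain ⟨𝒮, h𝒮, hex⟩ := hdir (ν × ν) (famB h E) _ (famB_finrank h hE)
  refine ⟨𝒮, h𝒮, fun S hS x0 hx0 Φ0 hΦ0 => ?_⟩
  obtain ⟨σ, hσ, hσ0⟩ := hex S hS x0 hx0 (fun y (p : ν × ν) => Φ0 y p.1 p.2)
    ((famB_fib h E x0 Φ0).2 hΦ0)
  refine ⟨fun x y a b => σ (x, y) (a, b), ?_, ?_⟩
  · have h1 := (secOn_homB_iff (E.pull h.snd) (E.pull h.add) {z : A × A | z.1 ∈ S}
      fun z => (fun a b => σ z (a, b) : Matrix ν ν K)).1 hσ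
    intro i j
    have h2 := h1 i j
    have h3 : ((E.pull h.snd).U i ∩ (E.pull h.add).U j) ∩ {z : A × A | z.1 ∈ S} =
        {z : A × A | z.1 ∈ S ∧ z.2 ∈ E.U i ∧ z.1 + z.2 ∈ E.U j} := by
      ext z
      constructor
      · rintro ⟨⟨h4, h5⟩, h6⟩
        exact ⟨h6, h4, h5⟩
      · rintro ⟨h6, h4, h5⟩
        exact ⟨⟨h4, h5⟩, h6⟩
    rw [h3] at h2
    exact h2
  · intro y
    funext a b
    exact congrFun (hσ0 y) (a, b)

end Pool.Agent.Work.MP_6d379e_ag.Gs
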