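import Pool.Agent.Work.MP_6d379e_ag.Gs.Fram

/-!
# The structure theorem   (size M-L)

Take `p` (`exists_cdec`), `B, s, lam` (`exists_lamD`), `I, V, Φ` (`exists_frD`), and for every `x` an
isomorphism `θ x` (`exists_theta`).

`E'` : index set `I`, sets `V w`, frames `e' w x = Φ w x 0 * B`.  `compat` : on `V w ∩ V w'`
`(e' w x)⁻¹ * e' w' x = B⁻¹ * (Φ w x 0)⁻¹ * Φ w' x 0 * B`; this is regular: by `rm_local` (covering
`E.U k`) it is enough on `V w ∩ V w' ∩ E.U k`, where it is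
`B⁻¹ * ((E.e k x)⁻¹ Φ w x 0)⁻¹ * ((E.e k x)⁻¹ Φ w' x 0) * B` (`FrD.reg`, `rm_inv`, `rm_mul`).
`HomV E' E 1` : `(E.e k x)⁻¹ * 1 * (Φ w x 0 * B)`, regular by `FrD.reg`.
For `x ∈ V w ∩ V w'` the function `u y = (Φ w x y)⁻¹ * Φ w' x y` is in `CEnd E p` (`cend_quot`), and the
transition matrix is `B⁻¹ * u 0 * B` : `LamD.tri`, `LamD.diag`.

`l t w x = lam t (fun y => (θ x y)⁻¹ * Φ w x y)` : nonzero on `V w` (`lam_ne`, invertible), and by
multiplicativity `(l t w x)⁻¹ * l t w' x = lam t (fun y => (Φ w x y)⁻¹ * Φ w' x y)`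
(`(θ⁻¹ Φ_w) * (Φ_w⁻¹ Φ_w') = θ⁻¹ Φ_w'`), a diagonal entry of the regular transition matrix
(`LamD.surj`); so `h0`, `hc` hold and the last equation of `SumUL` too.

`Homog h (lineB E' (l t) ..)` : let `a : A`.  Put
`c x = lam t (fun y => (θ (a + x) y)⁻¹ * θ a (x + y) * θ x y)` (the function inside is in `CEnd E p`:
`y ↦ θ a (x + y) * θ x y` is a homomorphism `E → tr (x + a) E` by `homV_cmp`, compatible with `p`;
`x + a = a + x`), nonzero, and `Φ' x = ` the `1 x 1` matrix with entry `c x`.  Regularity: the function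
`(l t w' (a + x))⁻¹ * c x * l t w x` on `V w ∩ {x | a + x ∈ V w'}` equals
`lam t (fun y => (Φ w' (a + x) y)⁻¹ * θ a (x + y) * Φ w x y)`, a diagonal entry (index `b`, `s b = t`) of
`B⁻¹ * (Φ w' (a + x) 0)⁻¹ * θ a x * Φ w x 0 * B`, which is regular: locally on
`x ∈ E.U k`, `a + x ∈ E.U k'` it is
`B⁻¹ ((E.e k' (a + x))⁻¹ Φ w' (a + x) 0)⁻¹ ((E.e k' (a + x))⁻¹ θ a x E.e k x) ((E.e k x)⁻¹ Φ w x 0) B`
(the first factor is the pull back of a regular function under the translation by `a`, the second one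
is regular because `θ a` is a homomorphism `E → tr a E`).
-/

namespace Pool.Agent.Work.MP_6d379e_ag.Gs

universe u

variable {K : Type*} [Field K] {A : Type u} [AddCommGroup A] {G : GSp K A} {G2 : GSp K (A × A)}

omit [AddCommGroup A] in
private theorem quot_reg {n : ℕ} (F : VB G (Fin n)) {S : Set A} (hS : G.adm S)
    {P Q : A → Matrix (Fin n) (Fin n) K}
    (hP : ∀ k, RM G (F.U k ∩ S) fun x => (F.e k x)⁻¹ * P x)
    (hQ : ∀ k, RM G (F.U k ∩ S) fun x => (F.e k x)⁻¹ * Q x)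
    (hu : ∀ x ∈ S, IsUnit (P x).det) : RM G S fun x => (P x)⁻¹ * Q x := by
  refine rm_local F.cov hS fun k => ?_
  have hadm : G.adm (F.U k ∩ S) := G.adm_inter _ _ (cov_range_adm F.cov k) hS
  refine rm_congr (rm_mul hadm (rm_inv hadm (hP k) fun x hx => ?_) (hQ k)) fun x hx => ?_
  · rw [Matrix.det_mul, Matrix.det_nonsing_inv]
    exact ((F.unit k x hx.1).ringInverse).mul (hu x hx.2)
  · rw [Matrix.mul_inv_rev, Matrix.nonsing_inv_nonsing_inv _ (F.unit k x hx.1), Matrix.mul_assoc,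
      Matrix.mul_nonsing_inv_cancel_left _ _ (F.unit k x hx.1)]

omit [AddCommGroup A] in
private theorem comp_reg {n : ℕ} (E F : VB G (Fin n)) {S : Set A} (hS : G.adm S)
    {Θ P : A → Matrix (Fin n) (Fin n) K} (hΘ : HomV E F Θ)
    (hP : ∀ k, RM G (E.U k ∩ S) fun x => (E.e k x)⁻¹ * P x) (k' : F.I) :
    RM G (F.U k' ∩ S) fun x => (F.e k' x)⁻¹ * (Θ x * P x) := by
  have hadm : G.adm (F.U k' ∩ S) := G.adm_inter _ _ (cov_range_adm F.cov k') hS
  refine rm_local E.cov hadm fun k => ?_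
  have hadm2 : G.adm (E.U k ∩ (F.U k' ∩ S)) := G.adm_inter _ _ (cov_range_adm E.cov k) hadm
  have h1 : RM G (E.U k ∩ (F.U k' ∩ S)) fun x => (F.e k' x)⁻¹ * Θ x * E.e k x :=
    rm_mono (fun a b => hΘ k k' a b) hadm2 fun x hx => ⟨hx.1, hx.2.1⟩
  have h2 : RM G (E.U k ∩ (F.U k' ∩ S)) fun x => (E.e k x)⁻¹ * P x :=
    rm_mono (hP k) hadm2 fun x hx => ⟨hx.1, hx.2.2⟩
  refine rm_congr (rm_mul hadm2 h1 h2) fun x hx => ?_
  simp only [Matrix.mul_assoc]
  rw [Matrix.mul_nonsing_inv_cancel_left _ _ (E.unit k x hx.1)]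

private theorem diag_inv {c : K} (hc : c ≠ 0) :
    (Matrix.diagonal fun _ : Unit => c)⁻¹ = Matrix.diagonal fun _ => c⁻¹ := by
  apply Matrix.inv_eq_right_inv
  rw [Matrix.diagonal_mul_diagonal, ← Matrix.diagonal_one]
  congr 1
  funext a
  exact mul_inv_cancel₀ hc

theorem sum_of_homog [IsAlgClosed K] (hdiv : ∀ N : ℕ, 0 < N → ∀ x : A, ∃ y, N • y = x)
    (h : GGrp G G2) (hfin : FinSec G) (hdir : DirIm h) {n : ℕ} {E : VB G (Fin n)}
    (hE : Homog h E) : SumUL h E := by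
  obtain ⟨r, p, hp⟩ := exists_cdec hfin E
  obtain ⟨B, s, lam, hL⟩ := exists_lamD hdiv h hfin hE hp
  obtain ⟨I, V, Φ, hF⟩ := exists_frD hdiv h hfin hdir hE hp
  choose θ hθ hθu hθc using fun x => exists_theta hdiv h hfin hE hp x
  have hVadm : ∀ w, G.adm (V w) := fun w => cov_range_adm hF.cov w
  -- quotients of two homomorphisms
  have hcq : ∀ w, ∀ x ∈ V w, CEnd E p fun y => (θ x y)⁻¹ * Φ w x y := fun w x hx =>
    cend_quot h (hθ x) (hθu x) (hθc x) (hF.hom w x hx) (hF.comm w x hx)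
  have hqq : ∀ w w', ∀ x ∈ V w ∩ V w', CEnd E p fun y => (Φ w x y)⁻¹ * Φ w' x y :=
    fun w w' x hx => cend_quot h (hF.hom w x hx.1) (hF.unit w x hx.1) (hF.comm w x hx.1)
      (hF.hom w' x hx.2) (hF.comm w' x hx.2)
  have hne : ∀ t w, ∀ x ∈ V w, lam t (fun y => (θ x y)⁻¹ * Φ w x y) ≠ 0 := by
    intro t w x hx
    refine hL.lam_ne _ (hcq w x hx) ?_ t
    rw [Matrix.det_mul, Matrix.det_nonsing_inv]
    exact ((hθu x 0).ringInverse).mul (hF.unit w x hx 0)
  have htr : ∀ w w', RM G (V w ∩ V w') fun x => (Φ w x 0 * B)⁻¹ * (Φ w' x 0 * B) := by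
    intro w w'
    have hadm := G.adm_inter _ _ (hVadm w) (hVadm w')
    have h1 : RM G (V w ∩ V w') fun x => (Φ w x 0)⁻¹ * Φ w' x 0 := by
      refine quot_reg E hadm (fun k => ?_) (fun k => ?_) fun x hx => hF.unit w x hx.1 0
      · exact rm_mono (hF.reg w k) (G.adm_inter _ _ (cov_range_adm E.cov k) hadm)
          fun x hx => ⟨hx.2.1, hx.1⟩
      · exact rm_mono (hF.reg w' k) (G.adm_inter _ _ (cov_range_adm E.cov k) hadm)
          fun x hx => ⟨hx.2.2, hx.1⟩
    refine rm_congr (rm_mul hadm (rm_mul hadm (rm_const hadm B⁻¹) h1) (rm_const hadm B))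
      fun x hx => ?_
    rw [Matrix.mul_inv_rev]
    simp only [Matrix.mul_assoc]
  have hlq : ∀ t w w', ∀ x ∈ V w ∩ V w',
      (lam t (fun y => (θ x y)⁻¹ * Φ w x y))⁻¹ * lam t (fun y => (θ x y)⁻¹ * Φ w' x y) =
        lam t (fun y => (Φ w x y)⁻¹ * Φ w' x y) := by
    intro t w w' x hx
    have h1 := hL.mul t _ _ (hcq w x hx.1) (hqq w w' x hx)
    have h2 : (fun y => (θ x y)⁻¹ * Φ w x y * ((Φ w x y)⁻¹ * Φ w' x y)) =
        fun y => (θ x y)⁻¹ * Φ w' x y := by
      funext y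
      rw [Matrix.mul_assoc, Matrix.mul_nonsing_inv_cancel_left _ _ (hF.unit w x hx.1 y)]
    rw [h2] at h1
    rw [h1, inv_mul_cancel_left₀ (hne t w x hx.1)]
  have hdg : ∀ w w', ∀ x ∈ V w ∩ V w', ∀ b,
      ((Φ w x 0 * B)⁻¹ * (Φ w' x 0 * B)) b b =
        (lam (s b) (fun y => (θ x y)⁻¹ * Φ w x y))⁻¹ *
          lam (s b) (fun y => (θ x y)⁻¹ * Φ w' x y) := by
    intro w w' x hx b
    rw [hlq _ w w' x hx, ← hL.diag _ (hqq w w' x hx) b, Matrix.mul_inv_rev]
    simp only [Matrix.mul_assoc]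
  let E' : VB G (Fin n) :=
    { I := I
      U := V
      e := fun w x => Φ w x 0 * B
      cov := hF.cov
      unit := fun w x hx => by
        rw [Matrix.det_mul]
        exact (hF.unit w x hx 0).mul hL.unitB
      compat := fun w w' a b => htr w w' a b }
  refine ⟨r, s, E', fun t w x => lam t (fun y => (θ x y)⁻¹ * Φ w x y), fun t w x hx =>
    hne t w x hx, ?_, ?_, ?_, ?_⟩
  · intro t w w'
    obtain ⟨b, rfl⟩ := hL.surj t
    exact G.reg_congr _ _ _ (htr w w' b b) fun x hx => hdg w w' x hx b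
  · intro w k a b
    have hadm := G.adm_inter _ _ (hVadm w) (cov_range_adm E.cov k)
    refine rm_congr (rm_mul hadm (hF.reg w k) (rm_const hadm B)) (fun x hx => ?_) a b
    show (E.e k x)⁻¹ * 1 * (Φ w x 0 * B) = _
    rw [Matrix.mul_one, Matrix.mul_assoc]
  · intro t a
    have hcc : ∀ x, CEnd E p fun y => (θ (a + x) y)⁻¹ * (θ a (x + y) * θ x y) := by
      intro x
      refine cend_quot h (hθ (a + x)) (hθu (a + x)) (hθc (a + x)) ?_ ?_
      · have := homV_cmp h (hθ x) (hθ a)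
        rwa [add_comm x a] at this
      · intro i y
        rw [← Matrix.mul_assoc, add_assoc, hθc a, Matrix.mul_assoc, hθc x, Matrix.mul_assoc]
    have hcn : ∀ x, lam t (fun y => (θ (a + x) y)⁻¹ * (θ a (x + y) * θ x y)) ≠ 0 := by
      intro x
      refine hL.lam_ne _ (hcc x) ?_ t
      rw [Matrix.det_mul, Matrix.det_nonsing_inv, Matrix.det_mul]
      exact ((hθu (a + x) 0).ringInverse).mul ((hθu a (x + 0)).mul (hθu x 0))
    refine ⟨fun x => Matrix.diagonal fun _ =>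
      lam t (fun y => (θ (a + x) y)⁻¹ * (θ a (x + y) * θ x y)), ?_, fun x => ?_⟩
    · intro w w' a' b'
      obtain ⟨b, rfl⟩ := hL.surj t
      have hmt := mor_tr h a
      have hadm' : G.adm ((fun y : A => a + y) ⁻¹' V w') := hmt.adm _ (hVadm w')
      have hadm : G.adm (V w ∩ (fun y : A => a + y) ⁻¹' V w') :=
        G.adm_inter _ _ (hVadm w) hadm'
      have h1 : RM G (V w ∩ (fun y : A => a + y) ⁻¹' V w') fun x =>
          (Φ w' (a + x) 0)⁻¹ * (θ a x * Φ w x 0) := by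
        refine quot_reg (tr h a E) hadm (fun k => ?_) (fun k => ?_)
          fun x hx => hF.unit w' _ hx.2 0
        · have h2 := rm_pull hmt (hF.reg w' k)
          exact rm_mono h2 (G.adm_inter _ _ (cov_range_adm (tr h a E).cov k) hadm)
            fun x hx => ⟨hx.2.2, hx.1⟩
        · refine comp_reg E (tr h a E) hadm (hθ a) (fun k => ?_) k
          exact rm_mono (hF.reg w k) (G.adm_inter _ _ (cov_range_adm E.cov k) hadm)
            fun x hx => ⟨hx.2.1, hx.1⟩
      have h3 := rm_mul hadm (rm_mul hadm (rm_const hadm B⁻¹) h1) (rm_const hadm B)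
      refine G.reg_congr _ _ _ (h3 b b) fun x hx => ?_
      obtain ⟨hx1, hx2⟩ := hx
      have hx2' : a + x ∈ V w' := hx2
      have hδ : CEnd E p fun y => (Φ w' (a + x) y)⁻¹ * (θ a (x + y) * Φ w x y) := by
        refine cend_quot h (hF.hom w' _ hx2') (hF.unit w' _ hx2') (hF.comm w' _ hx2') ?_ ?_
        · have := homV_cmp h (hF.hom w x hx1) (hθ a)
          rwa [add_comm x a] at this
        · intro i y
          rw [← Matrix.mul_assoc, add_assoc, hθc a, Matrix.mul_assoc, hF.comm w x hx1,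
            Matrix.mul_assoc]
      have e1 := hL.mul (s b) _ _ (hcq w' (a + x) hx2') hδ
      have e2 := hL.mul (s b) _ _ (hcc x) (hcq w x hx1)
      have e3 : (fun y => (θ (a + x) y)⁻¹ * Φ w' (a + x) y *
          ((Φ w' (a + x) y)⁻¹ * (θ a (x + y) * Φ w x y))) =
          fun y => (θ (a + x) y)⁻¹ * (θ a (x + y) * θ x y) * ((θ x y)⁻¹ * Φ w x y) := by
        funext y
        simp only [Matrix.mul_assoc]
        rw [Matrix.mul_nonsing_inv_cancel_left _ _ (hF.unit w' _ hx2' y),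
          Matrix.mul_nonsing_inv_cancel_left _ _ (hθu x y)]
      rw [e3, e2] at e1
      have e4 : lam (s b) (fun y => (Φ w' (a + x) y)⁻¹ * (θ a (x + y) * Φ w x y)) =
          (lam (s b) (fun y => (θ (a + x) y)⁻¹ * Φ w' (a + x) y))⁻¹ *
            lam (s b) (fun y => (θ (a + x) y)⁻¹ * (θ a (x + y) * θ x y)) *
            lam (s b) (fun y => (θ x y)⁻¹ * Φ w x y) := by
        rw [mul_assoc, e1, inv_mul_cancel_left₀ (hne _ w' _ hx2')]
      have e5 := hL.diag _ hδ b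
      rw [e4] at e5
      simp only [add_zero] at e5
      have e6 : ((Matrix.diagonal fun _ : Unit =>
        lam (s b) (fun y => (θ (a + x) y)⁻¹ * Φ w' (a + x) y))⁻¹ *
        (Matrix.diagonal fun _ => lam (s b)
          (fun y => (θ (a + x) y)⁻¹ * (θ a (x + y) * θ x y))) *
        (Matrix.diagonal fun _ => lam (s b) (fun y => (θ x y)⁻¹ * Φ w x y)) :
          Matrix Unit Unit K) a' b' =
          (lam (s b) (fun y => (θ (a + x) y)⁻¹ * Φ w' (a + x) y))⁻¹ *
            lam (s b) (fun y => (θ (a + x) y)⁻¹ * (θ a (x + y) * θ x y)) *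
            lam (s b) (fun y => (θ x y)⁻¹ * Φ w x y) := by
        rw [diag_inv (hne _ w' _ hx2'), Matrix.diagonal_mul_diagonal,
          Matrix.diagonal_mul_diagonal]
        simp
      exact e5.trans e6.symm
    · rw [Matrix.det_diagonal]
      simpa using hcn x
  · intro w w' x hx a b
    refine ⟨fun hab => ?_, hdg w w' x hx a⟩
    have := hL.tri _ (hqq w w' x hx) a b hab
    rw [← this]
    show ((Φ w x 0 * B)⁻¹ * (Φ w' x 0 * B)) a b = _
    rw [Matrix.mul_inv_rev]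
    simp only [Matrix.mul_assoc]

end Pool.Agent.Work.MP_6d379e_ag.Gs
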