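import Mathlib

/-!
# Simultaneous triangularization   (size M-L)

Pure linear algebra.  `p i` orthogonal idempotent matrices with sum `1`, `𝒩` a subspace of matrices
commuting with all `p i`, with `𝒩 ^ N = ⊥` (all products of `N` elements of `𝒩` vanish).

It is convenient to prove the coordinate-free version: for a finite-dimensional space `V` with
orthogonal idempotents `p i` (sum `1`) and such a subspace `𝒩` of endomorphisms there are a basis
`b_1, ..., b_n` of `V` and `s : Fin n → Fin r` with `p (s k) b_k = b_k` and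
`a b_k ∈ span {b_j | j < k, s j = s k}` for all `a ∈ 𝒩`.  Induction on `dim V`.  `V = 0` : trivial.
Let `V ≠ 0`.  The common kernel `W` of `𝒩` is not zero: choose `v ≠ 0` and a product
`a_1 ... a_k` of elements of `𝒩` of maximal length with `a_1 ... a_k v ≠ 0` (`k < N`); this vector lies
in `W`.  `W` is stable under the `p i` (they commute with `𝒩`), so some `p i W ≠ 0`; choose
`b_1 ∈ p i W`, `b_1 ≠ 0`, `s 1 = i`.  The quotient `V / K b_1` inherits `p` and `𝒩`; by induction it has
such a basis `c_2, ..., c_n`.  Lift `c_k` to a vector and apply `p (s k)` to the lift: this gives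
`b_k` with `p (s k) b_k = b_k`.  For `a ∈ 𝒩`, `a b_k = ∑ over 1 < j < k, s j = s k + λ b_1`; applying
`p (s k)` (which fixes `a b_k` and the `b_j` with `s j = s k`) shows `λ b_1 = 0` unless `s 1 = s k`.
(Instead of quotients one may also argue with the flag `V ⊇ 𝒩 V ⊇ 𝒩² V ...` : choose bases adapted to
it in every `p i V`.)

The matrix `B` has the columns `b_k`, `V = Fin n → K`.
-/

namespace Pool.Agent.Work.MP_6d379e_ag.Gs


private theorem tri_out {K : Type*} [Field K] {n : ℕ}
    {𝒩 : Submodule K (Matrix (Fin n) (Fin n) K)} {N : ℕ} (hN : 𝒩 ^ N = ⊥)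
    (U : Submodule K (Fin n → K)) (hU : U ≠ ⊤) :
    ∃ w, w ∉ U ∧ ∀ a ∈ 𝒩, a.mulVec w ∈ U := by
  by_contra hno
  push Not at hno
  obtain ⟨v, hv⟩ : ∃ v, v ∉ U := by
    by_contra h
    push Not at h
    exact hU (eq_top_iff.mpr fun x _ => h x)
  have key : ∀ m : ℕ, ∃ c ∈ 𝒩 ^ m, c.mulVec v ∉ U := by
    intro m
    induction m with
    | zero =>
      refine ⟨1, ?_, ?_⟩
      · rw [pow_zero]; exact Submodule.one_le.mp le_rfl
      · rw [Matrix.one_mulVec]; exact hv
    | succ m ih =>
      obtain ⟨c, hc, hcv⟩ := ih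
      obtain ⟨a, ha, hav⟩ := hno _ hcv
      refine ⟨a * c, ?_, ?_⟩
      · rw [pow_succ']; exact Submodule.mul_mem_mul ha hc
      · rw [← Matrix.mulVec_mulVec]; exact hav
  obtain ⟨c, hc, hcv⟩ := key N
  rw [hN, Submodule.mem_bot] at hc
  rw [hc, Matrix.zero_mulVec] at hcv
  exact hcv U.zero_mem

private theorem tri_step {K : Type*} [Field K] {n r : ℕ} {p : Fin r → Matrix (Fin n) (Fin n) K}
    (h2 : ∀ i, p i * p i = p i) (ho : ∀ i j, i ≠ j → p i * p j = 0) (hs : ∑ i, p i = 1)
    {𝒩 : Submodule K (Matrix (Fin n) (Fin n) K)} (hc : ∀ i, ∀ a ∈ 𝒩, p i * a = a * p i) {N : ℕ}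
    (hN : 𝒩 ^ N = ⊥) (k : ℕ) (hk : k ≤ n) :
    ∃ (b : Fin k → (Fin n → K)) (s : Fin k → Fin r), LinearIndependent K b ∧
      (∀ j, (p (s j)).mulVec (b j) = b j) ∧
      ∀ c ∈ 𝒩, ∀ j, ∃ m : Fin k → K, (∀ l, ¬ (l < j ∧ s l = s j) → m l = 0) ∧
        c.mulVec (b j) = ∑ l, m l • b l := by
  induction k with
  | zero =>
    exact ⟨fun i => i.elim0, fun i => i.elim0, linearIndependent_empty_type, fun i => i.elim0,
      fun _ _ i => i.elim0⟩
  | succ k ih =>
    obtain ⟨b, s, hli, hps, hcm⟩ := ih (by omega)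
    have hU : Submodule.span K (Set.range b) ≠ ⊤ := by
      intro htop
      have h1 := finrank_span_eq_card hli
      rw [htop, finrank_top, Module.finrank_fin_fun, Fintype.card_fin] at h1
      omega
    obtain ⟨w, hwU, hw⟩ := tri_out hN _ hU
    have hsum : w = ∑ i, (p i).mulVec w := by
      rw [← Matrix.sum_mulVec, hs, Matrix.one_mulVec]
    obtain ⟨i, hi⟩ : ∃ i, (p i).mulVec w ∉ Submodule.span K (Set.range b) := by
      by_contra h
      push Not at h
      exact hwU (by rw [hsum]; exact Submodule.sum_mem _ fun i _ => h i)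
    have hpb : ∀ t j, (p t).mulVec (b j) = if s j = t then b j else 0 := by
      intro t j
      by_cases h : s j = t
      · rw [if_pos h, ← h]; exact hps j
      · rw [if_neg h, ← hps j, Matrix.mulVec_mulVec, ho t (s j) (fun hh => h hh.symm),
          Matrix.zero_mulVec]
    refine ⟨Fin.snoc b ((p i).mulVec w), Fin.snoc s i, ?_, ?_, ?_⟩
    · rw [linearIndependent_finSnoc]
      exact ⟨hli, hi⟩
    · intro j
      refine Fin.lastCases ?_ (fun j => ?_) j
      · simp only [Fin.snoc_last]
        rw [Matrix.mulVec_mulVec, h2]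
      · simp only [Fin.snoc_castSucc]
        exact hps j
    · intro c hcN j
      refine Fin.lastCases ?_ (fun j => ?_) j
      · obtain ⟨m, hm⟩ := (Submodule.mem_span_range_iff_exists_fun K).mp (hw c hcN)
        refine ⟨Fin.snoc (fun l => if s l = i then m l else 0) 0, ?_, ?_⟩
        · intro l hl
          refine Fin.lastCases (fun _ => ?_) (fun l hl => ?_) l hl
          · simp only [Fin.snoc_last]
          · simp only [Fin.snoc_castSucc, Fin.snoc_last] at hl ⊢
            rw [if_neg]
            intro h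
            exact hl ⟨Fin.castSucc_lt_last l, h⟩
        · simp only [Fin.snoc_last]
          rw [Fin.sum_univ_castSucc]
          simp only [Fin.snoc_castSucc, Fin.snoc_last, zero_smul, add_zero]
          rw [Matrix.mulVec_mulVec, ← hc i c hcN, ← Matrix.mulVec_mulVec, ← hm,
            Matrix.mulVec_sum]
          refine Finset.sum_congr rfl fun l _ => ?_
          rw [Matrix.mulVec_smul, hpb]
          by_cases h : s l = i
          · rw [if_pos h, if_pos h]
          · rw [if_neg h, if_neg h, smul_zero, zero_smul]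
      · obtain ⟨m, hm0, hm⟩ := hcm c hcN j
        refine ⟨Fin.snoc m 0, ?_, ?_⟩
        · intro l hl
          refine Fin.lastCases (fun _ => ?_) (fun l hl => ?_) l hl
          · simp only [Fin.snoc_last]
          · simp only [Fin.snoc_castSucc] at hl ⊢
            refine hm0 l fun h => hl ⟨?_, h.2⟩
            exact Fin.castSucc_lt_castSucc_iff.mpr h.1
        · rw [Fin.sum_univ_castSucc]
          simp only [Fin.snoc_castSucc, Fin.snoc_last, zero_smul, add_zero]
          exact hm

theorem simul_tri {K : Type*} [Field K] {n r : ℕ} {p : Fin r → Matrix (Fin n) (Fin n) K}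
    (h2 : ∀ i, p i * p i = p i) (ho : ∀ i j, i ≠ j → p i * p j = 0) (hs : ∑ i, p i = 1)
    {𝒩 : Submodule K (Matrix (Fin n) (Fin n) K)} (hc : ∀ i, ∀ a ∈ 𝒩, p i * a = a * p i) {N : ℕ}
    (hN : 𝒩 ^ N = ⊥) :
    ∃ (B : Matrix (Fin n) (Fin n) K) (s : Fin n → Fin r), IsUnit B.det ∧
      (∀ t a b, (B⁻¹ * p t * B) a b = if a = b ∧ s a = t then 1 else 0) ∧
      ∀ c ∈ 𝒩, ∀ a b, (s a ≠ s b ∨ b ≤ a) → (B⁻¹ * c * B) a b = 0 := by
  obtain ⟨b, s, hli, hps, hcm⟩ := tri_step h2 ho hs hc hN n le_rfl
  have hpb : ∀ t j, (p t).mulVec (b j) = if s j = t then b j else 0 := by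
    intro t j
    by_cases h : s j = t
    · rw [if_pos h, ← h]; exact hps j
    · rw [if_neg h, ← hps j, Matrix.mulVec_mulVec, ho t (s j) (fun hh => h hh.symm),
        Matrix.zero_mulVec]
  obtain ⟨B, hB⟩ : ∃ B : Matrix (Fin n) (Fin n) K, B = Matrix.of fun i j => b j i := ⟨_, rfl⟩
  have hBcol : B.col = b := by
    rw [hB]
    funext j i
    rfl
  have hBu : IsUnit B := by
    rw [← Matrix.linearIndependent_cols_iff_isUnit, hBcol]
    exact hli
  have hdet : IsUnit B.det := (Matrix.isUnit_iff_isUnit_det B).mp hBu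
  have hinv : B⁻¹ * B = 1 := Matrix.nonsing_inv_mul B hdet
  have hcolmul : ∀ (M : Matrix (Fin n) (Fin n) K) (i j : Fin n),
      (M * B) i j = (M.mulVec (b j)) i := by
    intro M i j
    rw [Matrix.mul_apply, hB]
    rfl
  have hmain : ∀ (M D : Matrix (Fin n) (Fin n) K),
      (∀ j, M.mulVec (b j) = ∑ l, D l j • b l) → B⁻¹ * M * B = D := by
    intro M D h
    have h1 : M * B = B * D := by
      ext i j
      rw [hcolmul, h j, Matrix.mul_apply, Finset.sum_apply]
      refine Finset.sum_congr rfl fun l _ => ?_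
      rw [hB]
      simp only [Pi.smul_apply, smul_eq_mul, Matrix.of_apply]
      ring
    rw [Matrix.mul_assoc, h1, ← Matrix.mul_assoc, hinv, Matrix.one_mul]
  refine ⟨B, s, hdet, ?_, ?_⟩
  · intro t i j
    rw [hmain (p t) (Matrix.of fun i j => if i = j ∧ s i = t then 1 else 0)]
    · rfl
    · intro j
      rw [hpb, Finset.sum_eq_single j]
      · simp only [Matrix.of_apply, true_and]
        by_cases h : s j = t
        · rw [if_pos h, if_pos h, one_smul]
        · rw [if_neg h, if_neg h, zero_smul]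
      · intro l _ hl
        simp only [Matrix.of_apply]
        rw [if_neg (fun h => hl h.1), zero_smul]
      · intro h
        exact absurd (Finset.mem_univ j) h
  · intro c hcN i j hij
    have hcm' := hcm c hcN
    choose m hm0 hm using hcm'
    rw [hmain c (Matrix.of fun l j => m j l) (fun j => hm j)]
    simp only [Matrix.of_apply]
    refine hm0 j i fun h => ?_
    rcases hij with h1 | h1
    · exact h1 h.2
    · exact absurd h.1 (not_lt.mpr h1)

end Pool.Agent.Work.MP_6d379e_ag.Gs
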