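import Pool.Agent.Work.MP_6d379e_ag.Gs.Dec
import Pool.Agent.Work.MP_6d379e_ag.Gs.CAlg
import Pool.Agent.Work.MP_6d379e_ag.Gs.Tri

/-!
# Characters of the commutant, adapted basis of the fibre at zero   (size M-L)

Let `C` be the subalgebra of `endS E` of all `u` commuting with all `p i` (`CEnd E p u`), a
finite-dimensional algebra, with the central idempotents `p i`; they are primitive in `C`
(`CDec.prim`).  `central_chars` gives `Λ i : C →ₐ K`, `N`.  `lam i u = Λ i u` for `CEnd E p u`, and `0`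
otherwise (classical choice).  The evaluation at `0` is an algebra homomorphism from `C` to the
matrices; let `𝒩` be the image of `J = ⨅ ker Λ i`; `𝒩 ^ N = ⊥` (`Submodule.map_pow`), and its elements
commute with the `p i 0`.  `simul_tri` for the matrices `p i 0` gives `B`, `s`.

Every `u ∈ C` is `∑ i, Λ i u • p i + j` with `j ∈ J` (apply all `Λ k` to the difference).  So
`B⁻¹ * u 0 * B = diagonal of lam (s a) u + strictly upper triangular within the blocks`.

* `surj` : every `t : Fin r` is some `s a`: otherwise `B⁻¹ * p t 0 * B = 0`, so `p t 0 = 0`; but `p t y ≠ 0`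
  for some `y`, and with `θ` from `exists_theta` for `x = y` : `p t (y + 0) * θ 0 = θ 0 * p t 0 = 0` and
  `θ 0` is invertible, so `p t y = 0`, a contradiction.
* `lam_ne` : if `u 0` is invertible then the triangular matrix `B⁻¹ * u 0 * B` is invertible, so its
  diagonal entries `lam (s a) u` are nonzero, and every `t` is some `s a`.
* `lam_unit` : if all `lam t u ≠ 0` then `u` is a unit of `C`, so `u y` is invertible for every `y`.
-/

namespace Pool.Agent.Work.MP_6d379e_ag.Gs

universe u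

variable {K : Type*} [Field K] {A : Type u} [AddCommGroup A] {G : GSp K A} {G2 : GSp K (A × A)}
variable {n : ℕ}

/-- endomorphisms commuting with the decomposition -/
structure CEnd (E : VB G (Fin n)) {r : ℕ} (p : Fin r → A → Matrix (Fin n) (Fin n) K)
    (u : A → Matrix (Fin n) (Fin n) K) : Prop where
  hom : HomV E E u
  comm : ∀ i y, p i y * u y = u y * p i y

/-- adapted basis and characters -/
structure LamD (E : VB G (Fin n)) {r : ℕ} (p : Fin r → A → Matrix (Fin n) (Fin n) K)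
    (B : Matrix (Fin n) (Fin n) K) (s : Fin n → Fin r)
    (lam : Fin r → (A → Matrix (Fin n) (Fin n) K) → K) : Prop where
  unitB : IsUnit B.det
  surj : ∀ t, ∃ a, s a = t
  one : ∀ t, lam t (fun _ => 1) = 1
  mul : ∀ t u v, CEnd E p u → CEnd E p v → lam t (fun y => u y * v y) = lam t u * lam t v
  tri : ∀ u, CEnd E p u → ∀ a b, (s a ≠ s b ∨ b < a) → (B⁻¹ * u 0 * B) a b = 0
  diag : ∀ u, CEnd E p u → ∀ a, (B⁻¹ * u 0 * B) a a = lam (s a) u
  lam_ne : ∀ u, CEnd E p u → IsUnit (u 0).det → ∀ t, lam t u ≠ 0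
  lam_unit : ∀ u, CEnd E p u → (∀ t, lam t u ≠ 0) → ∀ y, IsUnit (u y).det

private theorem lamb_add {E : VB G (Fin n)} {r : ℕ} {p : Fin r → A → Matrix (Fin n) (Fin n) K}
    {u v : A → Matrix (Fin n) (Fin n) K} (hu : CEnd E p u) (hv : CEnd E p v) :
    CEnd E p fun y => u y + v y :=
  ⟨homV_add hu.hom hv.hom, fun i y => by rw [mul_add, add_mul, hu.comm, hv.comm]⟩

private theorem lamb_mul {E : VB G (Fin n)} {r : ℕ} {p : Fin r → A → Matrix (Fin n) (Fin n) K}
    {u v : A → Matrix (Fin n) (Fin n) K} (hu : CEnd E p u) (hv : CEnd E p v) :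
    CEnd E p fun y => u y * v y := by
  refine ⟨homV_comp hu.hom hv.hom, fun i y => ?_⟩
  rw [← mul_assoc, hu.comm, mul_assoc, hv.comm, mul_assoc]

private theorem lamb_alg (E : VB G (Fin n)) {r : ℕ} (p : Fin r → A → Matrix (Fin n) (Fin n) K)
    (c : K) : CEnd E p fun _ => algebraMap K (Matrix (Fin n) (Fin n) K) c := by
  refine ⟨homV_congr (homV_smul c (homV_id E)) fun x => Algebra.algebraMap_eq_smul_one c,
    fun i y => ?_⟩
  exact (Algebra.commutes c (p i y)).symm

/-- the subalgebra of the endomorphisms commuting with the decomposition -/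
private def CS (E : VB G (Fin n)) {r : ℕ} (p : Fin r → A → Matrix (Fin n) (Fin n) K) :
    Subalgebra K (A → Matrix (Fin n) (Fin n) K) where
  carrier := {u | CEnd E p u}
  mul_mem' := fun h h' => lamb_mul h h'
  add_mem' := fun h h' => lamb_add h h'
  algebraMap_mem' := fun c => lamb_alg E p c

/-- evaluation at a point -/
private def evC (E : VB G (Fin n)) {r : ℕ} (p : Fin r → A → Matrix (Fin n) (Fin n) K) (y : A) :
    CS E p →ₐ[K] Matrix (Fin n) (Fin n) K :=
  (Pi.evalAlgHom K (fun _ : A => Matrix (Fin n) (Fin n) K) y).comp (CS E p).val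

private theorem evC_apply (E : VB G (Fin n)) {r : ℕ}
    (p : Fin r → A → Matrix (Fin n) (Fin n) K) (y : A) (c : CS E p) :
    evC E p y c = (c : A → Matrix (Fin n) (Fin n) K) y := rfl

theorem exists_lamD [IsAlgClosed K] (hdiv : ∀ N : ℕ, 0 < N → ∀ x : A, ∃ y, N • y = x)
    (h : GGrp G G2) (hfin : FinSec G) {E : VB G (Fin n)} (hE : Homog h E) {r : ℕ}
    {p : Fin r → A → Matrix (Fin n) (Fin n) K} (hp : CDec E p) :
    ∃ (B : Matrix (Fin n) (Fin n) K) (s : Fin n → Fin r)
      (lam : Fin r → (A → Matrix (Fin n) (Fin n) K) → K), LamD E p B s lam := by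
  classical
  have hCfin : FiniteDimensional K (CS E p) := by
    have h1 : FiniteDimensional K (endS E) := endS_finite hfin E
    have hle : CS E p ≤ endS E := fun u hu => CEnd.hom hu
    exact FiniteDimensional.of_injective (Subalgebra.inclusion hle).toLinearMap
      (Subalgebra.inclusion_injective hle)
  have hpp : ∀ i j y, p j y * p i y = p i y * p j y := by
    intro i j y
    by_cases hij : i = j
    · rw [hij]
    · rw [hp.orth i j hij y, hp.orth j i (Ne.symm hij) y]
  set P : Fin r → CS E p := fun i => ⟨p i, ⟨hp.hom i, fun j y => hpp i j y⟩⟩ with hP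
  have hPc : ∀ (i : Fin r) (c : CS E p), P i * c = c * P i := by
    intro i c
    apply Subtype.ext
    funext y
    exact CEnd.comm c.2 i y
  obtain ⟨Λ, N, hΛp, hJ, hunit⟩ := central_chars (K := K) (C := CS E p) (p := P) hPc
    (fun i => by
      apply Subtype.ext
      funext y
      exact hp.idem i y)
    (fun i j hij => by
      apply Subtype.ext
      funext y
      exact hp.orth i j hij y)
    (by
      apply Subtype.ext
      funext y
      have h1 : ((∑ i, P i : CS E p) : A → Matrix (Fin n) (Fin n) K) y = ∑ i, p i y := by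
        rw [AddSubmonoidClass.coe_finsetSum, Finset.sum_apply]
      rw [h1, hp.sum y]
      rfl)
    (fun i h0 => by
      obtain ⟨y, hy⟩ := hp.ne i
      apply hy
      have h1 := congrArg (fun c : CS E p => (c : A → Matrix (Fin n) (Fin n) K) y) h0
      exact h1)
    (fun i u hu hpu => by
      have e1 : ∀ y, (u : A → Matrix (Fin n) (Fin n) K) y *
          (u : A → Matrix (Fin n) (Fin n) K) y = (u : A → Matrix (Fin n) (Fin n) K) y :=
        fun y => congrArg (fun c : CS E p => (c : A → Matrix (Fin n) (Fin n) K) y) hu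
      have e2 : ∀ y, p i y * (u : A → Matrix (Fin n) (Fin n) K) y =
          (u : A → Matrix (Fin n) (Fin n) K) y :=
        fun y => congrArg (fun c : CS E p => (c : A → Matrix (Fin n) (Fin n) K) y) hpu
      have e3 : ∀ y, (u : A → Matrix (Fin n) (Fin n) K) y * p i y =
          (u : A → Matrix (Fin n) (Fin n) K) y := by
        intro y
        rw [← CEnd.comm u.2 i y]
        exact e2 y
      rcases hp.prim i u (CEnd.hom u.2) e1 e2 e3 with h1 | h1
      · left
        apply Subtype.ext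
        funext y
        exact h1 y
      · right
        apply Subtype.ext
        funext y
        exact h1 y)
  set J : Submodule K (CS E p) := ⨅ i, LinearMap.ker (Λ i).toLinearMap with hJdef
  set 𝒩 : Submodule K (Matrix (Fin n) (Fin n) K) := J.map (evC E p 0).toLinearMap with h𝒩
  have hNN : 𝒩 ^ N = ⊥ := by
    rw [h𝒩, ← Submodule.map_pow, hJ, Submodule.map_bot]
  obtain ⟨B, s, hB, hBp, hBN⟩ := simul_tri (K := K) (p := fun i => p i 0)
    (fun i => hp.idem i 0) (fun i j hij => hp.orth i j hij 0) (hp.sum 0) (𝒩 := 𝒩)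
    (fun i a ha => by
      obtain ⟨c, -, rfl⟩ := ha
      exact CEnd.comm c.2 i 0) hNN
  set lam : Fin r → (A → Matrix (Fin n) (Fin n) K) → K := fun t u =>
    if hu : CEnd E p u then Λ t ⟨u, hu⟩ else 0 with hlam
  have lam_eq : ∀ t (c : CS E p), lam t (c : A → Matrix (Fin n) (Fin n) K) = Λ t c := by
    intro t c
    have hc : CEnd E p (c : A → Matrix (Fin n) (Fin n) K) := c.2
    rw [hlam]
    simp only
    rw [dif_pos hc]
  -- the shape of the matrices
  have key : ∀ (c : CS E p) (a b : Fin n),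
      ∃ m ∈ 𝒩, (B⁻¹ * (c : A → Matrix (Fin n) (Fin n) K) 0 * B) a b =
        (if a = b then Λ (s a) c else 0) + (B⁻¹ * m * B) a b := by
    intro c a b
    have hj : c - ∑ i, Λ i c • P i ∈ J := by
      rw [hJdef, Submodule.mem_iInf]
      intro k
      rw [LinearMap.mem_ker]
      show Λ k (c - ∑ i, Λ i c • P i) = 0
      rw [map_sub, map_sum, Finset.sum_eq_single k]
      · rw [map_smul, hΛp, if_pos rfl, smul_eq_mul, mul_one, sub_self]
      · intro i _ hik
        rw [map_smul, hΛp, if_neg (Ne.symm hik), smul_zero]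
      · intro hk
        exact absurd (Finset.mem_univ k) hk
    refine ⟨evC E p 0 (c - ∑ i, Λ i c • P i), ⟨_, hj, rfl⟩, ?_⟩
    have h1 : (c : A → Matrix (Fin n) (Fin n) K) 0 =
        ∑ i, Λ i c • p i 0 + evC E p 0 (c - ∑ i, Λ i c • P i) := by
      rw [map_sub, map_sum]
      have h2 : ∀ i, evC E p 0 (Λ i c • P i) = Λ i c • p i 0 := by
        intro i
        rw [map_smul]
        rfl
      simp only [h2]
      rw [evC_apply]
      abel
    rw [h1, mul_add, add_mul, Matrix.add_apply]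
    congr 1
    rw [Matrix.mul_sum, Matrix.sum_mul, Matrix.sum_apply]
    have h3 : ∀ i, (B⁻¹ * (Λ i c • p i 0) * B) a b =
        Λ i c * (if a = b ∧ s a = i then 1 else 0) := by
      intro i
      rw [Matrix.mul_smul, Matrix.smul_mul, Matrix.smul_apply, hBp, smul_eq_mul]
    simp only [h3]
    rw [Finset.sum_eq_single (s a)]
    · by_cases hab : a = b
      · rw [if_pos ⟨hab, rfl⟩, if_pos hab, mul_one]
      · rw [if_neg (fun h => hab h.1), if_neg hab, mul_zero]
    · intro i _ hi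
      rw [if_neg (fun h => hi h.2.symm), mul_zero]
    · intro hk
      exact absurd (Finset.mem_univ _) hk
  have hBi : B⁻¹ * B = 1 := Matrix.nonsing_inv_mul _ hB
  have hBi2 : B * B⁻¹ = 1 := Matrix.mul_nonsing_inv _ hB
  have hsurj : ∀ t, ∃ a, s a = t := by
    intro t
    by_contra hcon
    push Not at hcon
    have h0 : B⁻¹ * p t 0 * B = 0 := by
      ext a b
      rw [hBp, if_neg (fun h => hcon a h.2)]
      rfl
    have h1 : p t 0 = 0 := by
      calc p t 0 = (B * B⁻¹) * p t 0 * (B * B⁻¹) := by rw [hBi2, one_mul, mul_one]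
        _ = B * (B⁻¹ * p t 0 * B) * B⁻¹ := by simp only [mul_assoc]
        _ = 0 := by rw [h0, mul_zero, zero_mul]
    obtain ⟨y, hy⟩ := hp.ne t
    obtain ⟨θ, -, hθu, hθ⟩ := exists_theta hdiv h hfin hE hp y
    apply hy
    have h2 := hθ t 0
    rw [add_zero, h1, mul_zero] at h2
    have h3 : θ 0 * (θ 0)⁻¹ = 1 := Matrix.mul_nonsing_inv _ (hθu 0)
    calc p t y = p t y * (θ 0 * (θ 0)⁻¹) := by rw [h3, mul_one]
      _ = (p t y * θ 0) * (θ 0)⁻¹ := by rw [mul_assoc]
      _ = 0 := by rw [h2, zero_mul]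
  have htri : ∀ u, CEnd E p u → ∀ a b, (s a ≠ s b ∨ b < a) → (B⁻¹ * u 0 * B) a b = 0 := by
    intro u hu a b hab
    obtain ⟨m, hm, he⟩ := key ⟨u, hu⟩ a b
    have hne : a ≠ b := by
      rintro rfl
      rcases hab with h1 | h1
      · exact h1 rfl
      · exact lt_irrefl _ h1
    have h2 : (B⁻¹ * m * B) a b = 0 := hBN m hm a b (hab.imp id le_of_lt)
    rw [if_neg hne, h2, add_zero] at he
    exact he
  have hdiag : ∀ u, CEnd E p u → ∀ a, (B⁻¹ * u 0 * B) a a = lam (s a) u := by
    intro u hu a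
    obtain ⟨m, hm, he⟩ := key ⟨u, hu⟩ a a
    have h2 : (B⁻¹ * m * B) a a = 0 := hBN m hm a a (Or.inr le_rfl)
    rw [if_pos rfl, h2, add_zero, ← lam_eq] at he
    exact he
  refine ⟨B, s, lam, hB, hsurj, ?_, ?_, htri, hdiag, ?_, ?_⟩
  · intro t
    have h1 := lam_eq t 1
    rw [map_one] at h1
    exact h1
  · intro t u v hu hv
    have h1 := lam_eq t (⟨u, hu⟩ * ⟨v, hv⟩)
    rw [map_mul, ← lam_eq, ← lam_eq] at h1
    exact h1
  · intro u hu hd t
    obtain ⟨a, rfl⟩ := hsurj t
    rw [← hdiag u hu a]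
    have h1 : (B⁻¹ * u 0 * B).BlockTriangular id := by
      intro i j hij
      exact htri u hu i j (Or.inr hij)
    have h2 := Matrix.det_of_upperTriangular h1
    have h3 : IsUnit (B⁻¹ * u 0 * B).det := by
      rw [Matrix.det_mul, Matrix.det_mul]
      exact ((Matrix.isUnit_nonsing_inv_det _ hB).mul hd).mul hB
    rw [h2] at h3
    have h4 := h3.ne_zero
    rw [Finset.prod_ne_zero_iff] at h4
    exact h4 a (Finset.mem_univ a)
  · intro u hu hne y
    have h1 : IsUnit (⟨u, hu⟩ : CS E p) := hunit ⟨u, hu⟩ fun i => by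
      rw [← lam_eq]
      exact hne i
    have h2 := h1.map (evC E p y)
    exact (Matrix.isUnit_iff_isUnit_det _).1 h2

theorem cend_one (E : VB G (Fin n)) {r : ℕ} (p : Fin r → A → Matrix (Fin n) (Fin n) K) :
    CEnd E p fun _ => 1 := by
  exact ⟨homV_id E, fun i y => by rw [mul_one, one_mul]⟩

theorem cend_mul {E : VB G (Fin n)} {r : ℕ} {p : Fin r → A → Matrix (Fin n) (Fin n) K}
    {u v : A → Matrix (Fin n) (Fin n) K} (hu : CEnd E p u) (hv : CEnd E p v) :
    CEnd E p fun y => u y * v y := by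
  refine ⟨homV_comp hu.hom hv.hom, fun i y => ?_⟩
  rw [← mul_assoc, hu.comm, mul_assoc, hv.comm, mul_assoc]

theorem cend_inv {E : VB G (Fin n)} {r : ℕ} {p : Fin r → A → Matrix (Fin n) (Fin n) K}
    {u : A → Matrix (Fin n) (Fin n) K} (hu : CEnd E p u) (hd : ∀ y, IsUnit (u y).det) :
    CEnd E p fun y => (u y)⁻¹ := by
  refine ⟨homV_inv hu.hom hd, fun i y => ?_⟩
  have h1 : (u y)⁻¹ * u y = 1 := Matrix.nonsing_inv_mul _ (hd y)
  have h2 : u y * (u y)⁻¹ = 1 := Matrix.mul_nonsing_inv _ (hd y)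
  calc p i y * (u y)⁻¹ = ((u y)⁻¹ * u y) * p i y * (u y)⁻¹ := by rw [h1, one_mul]
    _ = (u y)⁻¹ * (u y * p i y) * (u y)⁻¹ := by rw [mul_assoc (u y)⁻¹]
    _ = (u y)⁻¹ * p i y * (u y * (u y)⁻¹) := by
      rw [← hu.comm i y]
      simp only [mul_assoc]
    _ = (u y)⁻¹ * p i y := by rw [h2, mul_one]

/-- for two homomorphisms `E → tr x E` compatible with `p`, the first one invertible -/
theorem cend_quot (h : GGrp G G2) {E : VB G (Fin n)} {r : ℕ}
    {p : Fin r → A → Matrix (Fin n) (Fin n) K} {x : A} {Φ Ψ : A → Matrix (Fin n) (Fin n) K}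
    (hΦ : HomV E (tr h x E) Φ) (hu : ∀ y, IsUnit (Φ y).det)
    (hc : ∀ i y, p i (x + y) * Φ y = Φ y * p i y) (hΨ : HomV E (tr h x E) Ψ)
    (hc' : ∀ i y, p i (x + y) * Ψ y = Ψ y * p i y) :
    CEnd E p fun y => (Φ y)⁻¹ * Ψ y := by
  refine ⟨homV_comp (homV_inv hΦ hu) hΨ, fun i y => ?_⟩
  have h1 : (Φ y)⁻¹ * Φ y = 1 := Matrix.nonsing_inv_mul _ (hu y)
  have h2 : Φ y * (Φ y)⁻¹ = 1 := Matrix.mul_nonsing_inv _ (hu y)
  have h3 : p i y * (Φ y)⁻¹ = (Φ y)⁻¹ * p i (x + y) := by
    calc p i y * (Φ y)⁻¹ = ((Φ y)⁻¹ * Φ y) * p i y * (Φ y)⁻¹ := by rw [h1, one_mul]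
      _ = (Φ y)⁻¹ * (Φ y * p i y) * (Φ y)⁻¹ := by rw [mul_assoc (Φ y)⁻¹]
      _ = (Φ y)⁻¹ * p i (x + y) * (Φ y * (Φ y)⁻¹) := by
        rw [← hc i y]
        simp only [mul_assoc]
      _ = (Φ y)⁻¹ * p i (x + y) := by rw [h2, mul_one]
  rw [← mul_assoc, h3, mul_assoc, hc' i y, mul_assoc]

end Pool.Agent.Work.MP_6d379e_ag.Gs
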