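import Pool.Agent.Work.MP_6d379e_ag.Gs.Fam
import Pool.Agent.Work.MP_6d379e_ag.Gs.LamB

/-!
# An admissible covering with families of isomorphisms   (size M-L)

Take `𝒮` from `ext_fam` and an index `i0` with `0 ∈ E.U i0`.  The index set is
`I = {(S, j, x0) | S ∈ 𝒮, x0 ∈ S ∩ E.U j}`.  For `w = (S, j, x0)` take `θ` from `exists_theta` for `x0`,
extend it by `ext_fam` to a family `Φ0` on `S`, and put
`Φ w x y = ∑ i, p i (x + y) * Φ0 x y * p i y` (`fam_conj`, `fam_sum`), so that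
`p i (x + y) * Φ w x y = Φ w x y * p i y`, and `Φ w x0 y = θ y`
(`∑ i, p i (x0 + y) θ y p i y = θ y ∑ p i y`).
The matrix function `M w x = (E.e j x)⁻¹ * Φ w x 0 * E.e i0 0` is regular on `S ∩ E.U j`
(`fam_slice` with `y = 0`, `x + 0 = x`), so is `g w = det (M w)`, and `g w x0 ≠ 0`.  Put
`V w = {x ∈ S ∩ E.U j | g w x ≠ 0}`, a set containing `x0`.

Covering: for fixed `S ∈ 𝒮`, `j`, the functions `g (S, j, x0)`, `x0 ∈ S ∩ E.U j`, have no common zero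
on `S ∩ E.U j`, so by `zar` the sets `V (S, j, x0)` form an admissible covering of `S ∩ E.U j`; the
sets `S ∩ E.U j` form an admissible covering of `A` (`cov_prod`, or `cov_trans` and `cov_inter`);
`cov_trans` again (the family of all `V w` is the union; compare the sets).

For `x ∈ V w` : `Φ w x : E → tr x E` is a homomorphism (`fam_hom`).  With `θ` from `exists_theta` for
`x`, the endomorphism `v = θ⁻¹ * Φ w x` is in `CEnd E p` (`cend_quot`) and `v 0` is invertible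
(because `M w x` is, as `g w x ≠ 0`, and the frames are invertible), so by `lam_ne` and `lam_unit` all
`v y` are invertible, hence all `Φ w x y = θ y * v y`.

Regularity at `y = 0` : for every `k`, `(E.e k x)⁻¹ * Φ w x 0` is regular on `V w ∩ E.U k` :
`fam_slice` for `i = i0`, `j = k`, `y = 0`, multiplied by the constant matrix `(E.e i0 0)⁻¹`.
-/

namespace Pool.Agent.Work.MP_6d379e_ag.Gs

universe u

variable {K : Type*} [Field K] {A : Type u} [AddCommGroup A] {G : GSp K A} {G2 : GSp K (A × A)}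
variable {n : ℕ}

/-- a covering with families of isomorphisms -/
structure FrD (h : GGrp G G2) (E : VB G (Fin n)) {r : ℕ}
    (p : Fin r → A → Matrix (Fin n) (Fin n) K) (I : Type u) (V : I → Set A)
    (Φ : I → A → A → Matrix (Fin n) (Fin n) K) : Prop where
  cov : G.cov Set.univ (Set.range V)
  hom : ∀ w, ∀ x ∈ V w, HomV E (tr h x E) (Φ w x)
  unit : ∀ w, ∀ x ∈ V w, ∀ y, IsUnit (Φ w x y).det
  comm : ∀ w, ∀ x ∈ V w, ∀ i y, p i (x + y) * Φ w x y = Φ w x y * p i y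
  reg : ∀ w k, RM G (V w ∩ E.U k) fun x => (E.e k x)⁻¹ * Φ w x 0

private theorem fram_ext (hdiv : ∀ N : ℕ, 0 < N → ∀ x : A, ∃ y, N • y = x)
    (h : GGrp G G2) (hfin : FinSec G) {E : VB G (Fin n)} (hE : Homog h E) {r : ℕ}
    {p : Fin r → A → Matrix (Fin n) (Fin n) K} (hp : CDec E p) {S : Set A} (hS : G.adm S)
    {x0 : A}
    (hex : ∀ Φ0 : A → Matrix (Fin n) (Fin n) K, HomV E (tr h x0 E) Φ0 →
      ∃ Φ : A → A → Matrix (Fin n) (Fin n) K, FamOn G2 E S Φ ∧ ∀ y, Φ x0 y = Φ0 y) :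
    ∃ Φ : A → A → Matrix (Fin n) (Fin n) K, FamOn G2 E S Φ ∧
      (∀ x i y, p i (x + y) * Φ x y = Φ x y * p i y) ∧ IsUnit (Φ x0 0).det := by
  obtain ⟨θ, hθ, hθu, hθc⟩ := exists_theta hdiv h hfin hE hp x0
  obtain ⟨Φ0, hΦ0, hΦ0e⟩ := hex θ hθ
  refine ⟨fun x y => ∑ i, p i (x + y) * Φ0 x y * p i y, ?_, ?_, ?_⟩
  · exact fam_sum h hS Finset.univ fun k _ => fam_conj h hS hΦ0 (hp.hom k) (hp.hom k)
  · intro x i y
    have h1 : p i (x + y) * ∑ k, p k (x + y) * Φ0 x y * p k y =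
        p i (x + y) * Φ0 x y * p i y := by
      rw [Finset.mul_sum, Finset.sum_eq_single i]
      · simp only [← Matrix.mul_assoc]
        rw [hp.idem]
      · intro k _ hk
        simp only [← Matrix.mul_assoc]
        rw [hp.orth i k (Ne.symm hk), Matrix.zero_mul, Matrix.zero_mul]
      · intro hk
        exact absurd (Finset.mem_univ i) hk
    have h2 : (∑ k, p k (x + y) * Φ0 x y * p k y) * p i y =
        p i (x + y) * Φ0 x y * p i y := by
      rw [Finset.sum_mul, Finset.sum_eq_single i]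
      · rw [Matrix.mul_assoc, hp.idem]
      · intro k _ hk
        rw [Matrix.mul_assoc, hp.orth k i hk, Matrix.mul_zero]
      · intro hk
        exact absurd (Finset.mem_univ i) hk
    exact h1.trans h2.symm
  · have h1 : (∑ i, p i (x0 + 0) * Φ0 x0 0 * p i 0) = θ 0 := by
      have h2 : ∀ i, p i (x0 + 0) * Φ0 x0 0 * p i 0 = θ 0 * p i 0 := by
        intro i
        rw [hΦ0e, hθc, Matrix.mul_assoc, hp.idem]
      rw [Finset.sum_congr rfl fun i _ => h2 i, ← Finset.mul_sum, hp.sum, Matrix.mul_one]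
    show IsUnit (∑ i, p i (x0 + 0) * Φ0 x0 0 * p i 0).det
    rw [h1]
    exact hθu 0

private theorem fram_unit (hdiv : ∀ N : ℕ, 0 < N → ∀ x : A, ∃ y, N • y = x)
    (h : GGrp G G2) (hfin : FinSec G) {E : VB G (Fin n)} (hE : Homog h E) {r : ℕ}
    {p : Fin r → A → Matrix (Fin n) (Fin n) K} (hp : CDec E p)
    {B : Matrix (Fin n) (Fin n) K} {s : Fin n → Fin r}
    {lam : Fin r → (A → Matrix (Fin n) (Fin n) K) → K} (hL : LamD E p B s lam) {S : Set A}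
    {Φ : A → A → Matrix (Fin n) (Fin n) K} (hΦ : FamOn G2 E S Φ)
    (hc : ∀ x i y, p i (x + y) * Φ x y = Φ x y * p i y) {x : A} (hx : x ∈ S)
    (h0 : IsUnit (Φ x 0).det) (y : A) : IsUnit (Φ x y).det := by
  obtain ⟨θ, hθ, hθu, hθc⟩ := exists_theta hdiv h hfin hE hp x
  have hv := cend_quot h hθ hθu hθc (fam_hom h hΦ hx) fun i y => hc x i y
  have hv0 : IsUnit ((θ 0)⁻¹ * Φ x 0).det := by
    rw [Matrix.det_mul]
    exact (Matrix.isUnit_nonsing_inv_det _ (hθu 0)).mul h0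
  have h1 := hL.lam_unit _ hv (hL.lam_ne _ hv hv0) y
  have h2 : Φ x y = θ y * ((θ y)⁻¹ * Φ x y) := by
    rw [← Matrix.mul_assoc, Matrix.mul_nonsing_inv _ (hθu y), Matrix.one_mul]
  rw [h2, Matrix.det_mul]
  exact (hθu y).mul h1

private theorem fram_slice (h : GGrp G G2) {E : VB G (Fin n)} {S : Set A}
    {Φ : A → A → Matrix (Fin n) (Fin n) K} (hΦ : FamOn G2 E S Φ) {i0 : E.I}
    (hi0 : (0 : A) ∈ E.U i0) (j : E.I) :
    RM G (E.U j ∩ S) fun x => (E.e j x)⁻¹ * Φ x 0 * E.e i0 0 := by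
  have h1 := fam_slice h hΦ i0 j hi0
  have h2 : {x : A | x ∈ S ∧ x + 0 ∈ E.U j} = E.U j ∩ S := by
    ext x
    rw [Set.mem_setOf_eq, add_zero]
    exact and_comm
  rw [h2] at h1
  refine rm_congr h1 fun x _ => ?_
  rw [add_zero]

theorem exists_frD [IsAlgClosed K] (hdiv : ∀ N : ℕ, 0 < N → ∀ x : A, ∃ y, N • y = x)
    (h : GGrp G G2) (hfin : FinSec G) (hdir : DirIm h) {E : VB G (Fin n)} (hE : Homog h E) {r : ℕ}
    {p : Fin r → A → Matrix (Fin n) (Fin n) K} (hp : CDec E p) :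
    ∃ (I : Type u) (V : I → Set A) (Φ : I → A → A → Matrix (Fin n) (Fin n) K),
      FrD h E p I V Φ := by
  obtain ⟨𝒮, h𝒮, hex⟩ := ext_fam h hfin hdir hE
  obtain ⟨B, s, lam, hL⟩ := exists_lamD hdiv h hfin hE hp
  have hadmS : ∀ S ∈ 𝒮, G.adm S := fun S hS => ((G.cov_adm _ _ h𝒮).2 S hS).1
  have hex2 : ∀ S ∈ 𝒮, ∀ x0 ∈ S, ∃ Φ : A → A → Matrix (Fin n) (Fin n) K, FamOn G2 E S Φ ∧
      (∀ x i y, p i (x + y) * Φ x y = Φ x y * p i y) ∧ IsUnit (Φ x0 0).det :=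
    fun S hS x0 hx0 => fram_ext hdiv h hfin hE hp (hadmS S hS) (hex S hS x0 hx0)
  choose! Φ hΦ hΦc hΦu using hex2
  obtain ⟨i0, hi0⟩ := cov_range_mem E.cov (0 : A)
  let I : Type u := {w : Set A × E.I × A // w.1 ∈ 𝒮 ∧ w.2.2 ∈ E.U w.2.1 ∩ w.1}
  let g : I → A → K := fun w x => ((E.e w.1.2.1 x)⁻¹ * Φ w.1.1 w.1.2.2 x 0 * E.e i0 0).det
  let V : I → Set A := fun w => {x | x ∈ E.U w.1.2.1 ∩ w.1.1 ∧ g w x ≠ 0}
  have hgm : ∀ w x, g w x = ((E.e w.1.2.1 x)⁻¹).det * (Φ w.1.1 w.1.2.2 x 0).det *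
      (E.e i0 0).det := by
    intro w x
    show ((E.e w.1.2.1 x)⁻¹ * Φ w.1.1 w.1.2.2 x 0 * E.e i0 0).det = _
    rw [Matrix.det_mul, Matrix.det_mul]
  have hadm : ∀ w : I, G.adm (E.U w.1.2.1 ∩ w.1.1) := fun w =>
    G.adm_inter _ _ (cov_range_adm E.cov _) (hadmS _ w.2.1)
  have hcov : G.cov Set.univ (Set.range V) := by
    have h1 := G.cov_trans Set.univ 𝒮 (fun S => {V' | ∃ V ∈ Set.range E.U, V' = V ∩ S}) h𝒮
      fun S hS => G.cov_inter _ _ _ E.cov (hadmS S hS) (Set.subset_univ S)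
    have h2 := G.cov_trans _ _ (fun W => {V' | ∃ f ∈ {f : A → K | ∃ w : I,
      E.U w.1.2.1 ∩ w.1.1 = W ∧ f = g w}, V' = {x | x ∈ W ∧ f x ≠ 0}}) h1 (by
      rintro W ⟨S, hS, V', ⟨j, rfl⟩, rfl⟩
      refine G.zar _ _ (G.adm_inter _ _ (cov_range_adm E.cov j) (hadmS S hS)) ?_ ?_
      · rintro f ⟨w, hw, rfl⟩
        rw [← hw]
        exact rm_det (hadm w) (fram_slice h (hΦ _ w.2.1 _ w.2.2.2) hi0 w.1.2.1)
      · intro x hx
        refine ⟨g ⟨(S, j, x), hS, hx⟩, ⟨_, rfl, rfl⟩, ?_⟩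
        rw [hgm]
        exact mul_ne_zero (mul_ne_zero
          (Matrix.isUnit_nonsing_inv_det _ (E.unit j x hx.1)).ne_zero
          (hΦu S hS x hx.2).ne_zero) (E.unit i0 0 hi0).ne_zero)
    refine (congrArg (G.cov Set.univ) ?_).mp h2
    ext W'
    constructor
    · rintro ⟨W, -, f, ⟨w, hw, rfl⟩, rfl⟩
      refine ⟨w, ?_⟩
      rw [← hw]
    · rintro ⟨w, rfl⟩
      exact ⟨E.U w.1.2.1 ∩ w.1.1, ⟨w.1.1, w.2.1, E.U w.1.2.1, ⟨_, rfl⟩, rfl⟩, g w,
        ⟨w, rfl, rfl⟩, rfl⟩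
  refine ⟨I, V, fun w => Φ w.1.1 w.1.2.2, hcov, ?_, ?_, ?_, ?_⟩
  · intro w x hx
    exact fam_hom h (hΦ _ w.2.1 _ w.2.2.2) hx.1.2
  · intro w x hx y
    have hu0 : IsUnit (Φ w.1.1 w.1.2.2 x 0).det := by
      have h1 : g w x ≠ 0 := hx.2
      rw [hgm] at h1
      exact isUnit_iff_ne_zero.2 (right_ne_zero_of_mul (left_ne_zero_of_mul h1))
    exact fram_unit hdiv h hfin hE hp hL (hΦ _ w.2.1 _ w.2.2.2) (hΦc _ w.2.1 _ w.2.2.2)
      hx.1.2 hu0 y
  · intro w x hx i y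
    exact hΦc _ w.2.1 _ w.2.2.2 x i y
  · intro w k
    have hadmk : G.adm (E.U k ∩ w.1.1) :=
      G.adm_inter _ _ (cov_range_adm E.cov k) (hadmS _ w.2.1)
    have h1 := rm_mul hadmk (fram_slice h (hΦ _ w.2.1 _ w.2.2.2) hi0 k)
      (rm_const hadmk ((E.e i0 0)⁻¹))
    have h2 : RM G (E.U k ∩ w.1.1) fun x => (E.e k x)⁻¹ * Φ w.1.1 w.1.2.2 x 0 := by
      refine rm_congr h1 fun x _ => ?_
      rw [Matrix.mul_assoc _ (E.e i0 0), Matrix.mul_nonsing_inv _ (E.unit i0 0 hi0),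
        Matrix.mul_one]
    exact rm_mono h2 (G.adm_inter _ _ (cov_range_adm hcov w) (cov_range_adm E.cov k))
      fun x hx => ⟨hx.2, hx.1.1.2⟩

end Pool.Agent.Work.MP_6d379e_ag.Gs
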