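import Pool.Agent.Work.MP_6d379e_ag.Gs.Defs

/-!
# Calculus of regular functions and matrices   (size M)

* `reg_sum`, `reg_prod` : induction; the empty sum needs `G.adm U` (`reg_const`).
* `rm_mul`, `rm_det` : entries of a product and the determinant are finite sums of products.
* `rm_inv` : `M⁻¹ = (det M)⁻¹ • adjugate M` (`Matrix.inv_def`, `Ring.inverse_eq_inv`), the entries of the
  adjugate are determinants of updated matrices (`Matrix.adjugate_apply`); `reg_inv`.
* `adm_pre` etc. : consequences of `Mor`.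
* `cov_prod` : `cov_trans` applied to the covering `range U` and the coverings
  `{U i ∩ V j | j}` of `U i` (`cov_inter` of `range V` with `W = U i`), with the choice function
  `𝒱 W = {V' | ∃ V ∈ range V, V' = V ∩ W}`; compare the sets.
* `cov_refine_adm` : members of an admissible covering are admissible.
* `reg_local` : `cov_inter` and `reg_glue`: a function regular on all `U i ∩ S` is regular on `S`.
-/

namespace Pool.Agent.Work.MP_6d379e_ag.Gs

universe u

variable {K : Type*} [Field K] {X Y : Type u} {G : GSp K X} {H : GSp K Y} {U V S : Set X}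
variable {α β γ : Type}

theorem reg_neg {f : X → K} (hU : G.adm U) (hf : G.reg U f) : G.reg U fun x => -f x := by
  refine G.reg_congr _ _ _ (G.reg_mul _ _ _ (G.reg_const _ (-1) hU) hf) fun x _ => ?_
  ring

theorem reg_sum {ι : Type*} (s : Finset ι) {f : ι → X → K} (hU : G.adm U)
    (hf : ∀ i ∈ s, G.reg U (f i)) : G.reg U fun x => ∑ i ∈ s, f i x := by
  classical
  induction s using Finset.induction_on with
  | empty =>
    refine G.reg_congr _ _ _ (G.reg_const _ 0 hU) fun x _ => ?_
    simp
  | insert a s ha ih =>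
    refine G.reg_congr _ _ _ (G.reg_add _ _ _ (hf a (Finset.mem_insert_self a s))
      (ih fun i hi => hf i (Finset.mem_insert_of_mem hi))) fun x _ => ?_
    rw [Finset.sum_insert ha]

theorem reg_prod {ι : Type*} (s : Finset ι) {f : ι → X → K} (hU : G.adm U)
    (hf : ∀ i ∈ s, G.reg U (f i)) : G.reg U fun x => ∏ i ∈ s, f i x := by
  classical
  induction s using Finset.induction_on with
  | empty =>
    refine G.reg_congr _ _ _ (G.reg_const _ 1 hU) fun x _ => ?_
    simp
  | insert a s ha ih =>
    refine G.reg_congr _ _ _ (G.reg_mul _ _ _ (hf a (Finset.mem_insert_self a s))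
      (ih fun i hi => hf i (Finset.mem_insert_of_mem hi))) fun x _ => ?_
    rw [Finset.prod_insert ha]

theorem rm_congr {M N : X → Matrix α β K} (hM : RM G U M) (h : ∀ x ∈ U, N x = M x) :
    RM G U N := by
  intro a b
  refine G.reg_congr _ _ _ (hM a b) fun x hx => ?_
  rw [h x hx]

theorem rm_mono {M : X → Matrix α β K} (hM : RM G U M) (hV : G.adm V) (h : V ⊆ U) :
    RM G V M := by
  intro a b
  exact G.reg_mono _ _ _ (hM a b) hV h

theorem rm_const (hU : G.adm U) (M : Matrix α β K) : RM G U fun _ => M := by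
  intro a b
  exact G.reg_const _ _ hU

theorem rm_add {M N : X → Matrix α β K} (hM : RM G U M) (hN : RM G U N) :
    RM G U fun x => M x + N x := by
  intro a b
  exact G.reg_add _ _ _ (hM a b) (hN a b)

theorem rm_sum {ι : Type*} (s : Finset ι) {M : ι → X → Matrix α β K} (hU : G.adm U)
    (hM : ∀ i ∈ s, RM G U (M i)) : RM G U fun x => ∑ i ∈ s, M i x := by
  intro a b
  refine G.reg_congr _ _ _ (reg_sum s hU fun i hi => hM i hi a b) fun x _ => ?_
  show _ = (∑ i ∈ s, M i x) a b
  rw [Matrix.sum_apply]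

theorem rm_mul [Fintype β] {M : X → Matrix α β K} {N : X → Matrix β γ K} (hU : G.adm U)
    (hM : RM G U M) (hN : RM G U N) : RM G U fun x => M x * N x := by
  intro a b
  exact reg_sum Finset.univ hU fun i _ => G.reg_mul _ _ _ (hM a i) (hN i b)

theorem rm_smul {f : X → K} {M : X → Matrix α β K} (hf : G.reg U f) (hM : RM G U M) :
    RM G U fun x => f x • M x := by
  intro a b
  exact G.reg_mul _ _ _ hf (hM a b)

theorem rm_det [Fintype α] [DecidableEq α] {M : X → Matrix α α K} (hU : G.adm U)
    (hM : RM G U M) : G.reg U fun x => (M x).det := by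
  refine G.reg_congr _ _ _ (reg_sum Finset.univ hU
    (f := fun (σ : Equiv.Perm α) (x : X) =>
      ((Equiv.Perm.sign σ : ℤ) : K) * ∏ i, M x (σ i) i)
    fun σ _ => G.reg_mul _ _ _ (G.reg_const _ _ hU)
      (reg_prod Finset.univ hU fun i _ => hM (σ i) i)) fun x _ => ?_
  exact (Matrix.det_apply' (M x)).symm

theorem rm_inv [Fintype α] [DecidableEq α] {M : X → Matrix α α K} (hU : G.adm U)
    (hM : RM G U M) (h : ∀ x ∈ U, IsUnit (M x).det) : RM G U fun x => (M x)⁻¹ := by
  have hd : G.reg U fun x => ((M x).det)⁻¹ :=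
    G.reg_inv _ _ (rm_det hU hM) fun x hx => (h x hx).ne_zero
  intro a b
  have hadj : G.reg U fun x => (M x).adjugate a b := by
    have h1 : RM G U fun x => (M x).updateRow b (Pi.single a 1) := by
      intro c d
      by_cases hc : c = b
      · subst hc
        refine G.reg_congr _ _ _ (G.reg_const _ ((Pi.single a 1 : α → K) d) hU) fun x _ => ?_
        show _ = (M x).updateRow c (Pi.single a 1) c d
        rw [Matrix.updateRow_self]
      · refine G.reg_congr _ _ _ (hM c d) fun x _ => ?_
        show _ = (M x).updateRow b (Pi.single a 1) c d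
        rw [Matrix.updateRow_ne hc]
    refine G.reg_congr _ _ _ (rm_det hU h1) fun x _ => ?_
    rw [Matrix.adjugate_apply]
  refine G.reg_congr _ _ _ (G.reg_mul _ _ _ hd hadj) fun x _ => ?_
  show _ = (M x)⁻¹ a b
  rw [Matrix.inv_def, Ring.inverse_eq_inv]
  rfl

theorem rm_pull {φ : X → Y} (hφ : Mor G H φ) {W : Set Y} {M : Y → Matrix α β K}
    (hM : RM H W M) : RM G (φ ⁻¹' W) fun x => M (φ x) := by
  intro a b
  exact hφ.reg _ _ (hM a b)

theorem cov_range_adm {I : Type*} {U : I → Set X} {W : Set X} (h : G.cov W (Set.range U))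
    (i : I) : G.adm (U i) := by
  exact ((G.cov_adm _ _ h).2 (U i) ⟨i, rfl⟩).1

theorem cov_range_mem {I : Type*} {U : I → Set X} (h : G.cov Set.univ (Set.range U)) (x : X) :
    ∃ i, x ∈ U i := by
  obtain ⟨V, ⟨i, rfl⟩, hx⟩ := G.cov_mem _ _ h x (Set.mem_univ x)
  exact ⟨i, hx⟩

theorem cov_prod {I J : Type*} {U : I → Set X} {V : J → Set X}
    (hU : G.cov Set.univ (Set.range U)) (hV : G.cov Set.univ (Set.range V)) :
    G.cov Set.univ (Set.range fun p : I × J => U p.1 ∩ V p.2) := by
  have h1 := G.cov_trans Set.univ (Set.range U)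
    (fun W => {V' | ∃ V0 ∈ Set.range V, V' = V0 ∩ W}) hU (fun W hW => by
      obtain ⟨i, rfl⟩ := hW
      exact G.cov_inter Set.univ (Set.range V) (U i) hV (cov_range_adm hU i)
        (Set.subset_univ _))
  have h2 : {W | ∃ V0 ∈ Set.range U, W ∈ (fun W => {V' | ∃ V0 ∈ Set.range V, V' = V0 ∩ W}) V0} =
      Set.range fun p : I × J => U p.1 ∩ V p.2 := by
    ext W
    constructor
    · rintro ⟨_, ⟨i, rfl⟩, _, ⟨j, rfl⟩, rfl⟩
      exact ⟨(i, j), Set.inter_comm _ _⟩
    · rintro ⟨⟨i, j⟩, rfl⟩
      exact ⟨U i, ⟨i, rfl⟩, V j, ⟨j, rfl⟩, Set.inter_comm _ _⟩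
  rw [h2] at h1
  exact h1

theorem reg_local {I : Type*} {U : I → Set X} (hU : G.cov Set.univ (Set.range U))
    (hS : G.adm S) {f : X → K} (h : ∀ i, G.reg (U i ∩ S) f) : G.reg S f := by
  have h1 := G.cov_inter Set.univ (Set.range U) S hU hS (Set.subset_univ _)
  refine G.reg_glue _ _ _ h1 ?_
  rintro _ ⟨_, ⟨i, rfl⟩, rfl⟩
  exact h i

theorem rm_local {I : Type*} {U : I → Set X} (hU : G.cov Set.univ (Set.range U))
    (hS : G.adm S) {M : X → Matrix α β K} (h : ∀ i, RM G (U i ∩ S) M) : RM G S M := by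
  intro a b
  exact reg_local hU hS fun i => h i a b

end Pool.Agent.Work.MP_6d379e_ag.Gs
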